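import Pool.Agent.Helper23.CK.Defs
import Pool.Agent.Helper84.Kauf.Defs

set_option autoImplicit false

/-!
# `ℵ₂`-Kaufmann models and `ℵ₂`-Aronszajn trees in a countable transitive model

`Tm`, `Fm` (terms and formulas of the language of arithmetic), `basicAxioms` (the axioms of Peano
arithmetic other than induction) and `IsRecType` (recursive sets of formulas with finitely many free
variables) are defined in `Helper84.Kauf.Defs`.  The trees and the cardinals of a model `(M, E)` of
set theory are defined in `Helper23.CK.Defs`.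
-/

universe u v

namespace Pool.Agent.Helper23.KB

open CK
open WT (IsFun App)
open Helper84.Kauf (Tm Fm basicAxioms IsRecType)

/-! ### structures for the language of arithmetic -/

/-- a structure for the language `0, 1, +, ·, <` -/
structure Str (X : Type v) where
  zero : X
  one : X
  add : X → X → X
  mul : X → X → X
  lt : X → X → Prop

section

variable {X : Type v} (N : Str X)

/-- the value of a term under the assignment `s` -/
def Ev (s : ℕ → X) : Tm → X
  | .var k => s k
  | .zero => N.zero
  | .one => N.one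
  | .add t u => N.add (Ev s t) (Ev s u)
  | .mul t u => N.mul (Ev s t) (Ev s u)

/-- satisfaction of a formula under the assignment `s` -/
def Sat : (ℕ → X) → Fm → Prop
  | s, .eq t u => Ev N s t = Ev N s u
  | s, .lt t u => N.lt (Ev N s t) (Ev N s u)
  | _, .bot => False
  | s, .imp φ ψ => Sat s φ → Sat s ψ
  | s, .all k φ => ∀ a, Sat (Function.update s k a) φ

/-- `N` is a model of Peano arithmetic -/
def IsPA : Prop :=
  (∀ φ ∈ basicAxioms, ∀ s : ℕ → X, Sat N s φ) ∧
  ∀ (φ : Fm) (k : ℕ) (s : ℕ → X), Sat N (Function.update s k N.zero) φ →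
    (∀ x, Sat N (Function.update s k x) φ → Sat N (Function.update s k (N.add x N.one)) φ) →
    ∀ x, Sat N (Function.update s k x) φ

/-- `N` is recursively saturated: every recursive type over finitely many parameters (the values
under `s` of the variables other than `v_0`) which is finitely satisfiable is realised -/
def IsRecSat : Prop :=
  ∀ T : Set Fm, IsRecType T → ∀ s : ℕ → X,
    (∀ F : Finset Fm, (F : Set Fm) ⊆ T → ∃ a, ∀ φ ∈ F, Sat N (Function.update s 0 a) φ) →
    ∃ a, ∀ φ ∈ T, Sat N (Function.update s 0 a) φ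

/-- `Y` is definable in `N` with parameters -/
def IsDef (Y : Set X) : Prop :=
  ∃ (φ : Fm) (s : ℕ → X), ∀ x, x ∈ Y ↔ Sat N (Function.update s 0 x) φ

end

/-! ### cardinals in a model of set theory -/

section

variable {M : Type v} (E : M → M → Prop)

/-- `w = ω₂`, where `u = ω₁`: an ordinal without an injection to `u` all of whose elements have an
injection to `u` -/
def IsOmega2 (u w : M) : Prop :=
  IsOrdinal E w ∧ ¬ CardLe E w u ∧ ∀ a, E a w → CardLe E a u

/-- there is a bijection from `A` to `B` -/
def CardEq (A B : M) : Prop :=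
  ∃ f, IsFun E f A B ∧ (∀ x x' y, App E f x y → App E f x' y → x = x') ∧
    ∀ y, E y B → ∃ x, App E f x y

/-- `L` has fewer elements than the cardinal `w` -/
def CardLt (L w : M) : Prop := ∃ d, E d w ∧ CardLe E L d

/-- `(T, R)` is an `ℵ₂`-Aronszajn tree, where `w = ω₂`: a tree of height `w` all of whose levels
have fewer than `ℵ₂` elements, without cofinal branches -/
def IsAronszajn (w T R : M) : Prop :=
  IsTree E T R ∧ (∀ t, E t T → ∃ a, E a w ∧ HasHeight E T R t a) ∧
    (∀ a, E a w → ∃ L, IsLevel E T R a L ∧ (∃ t, E t L) ∧ CardLt E L w) ∧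
    ¬ ∃ b, IsCofinalBranch E T R w b

end

/-! ### Kaufmann models in a transitive model of set theory -/

section

variable (M : ZFSet.{0})

/-- `N` is an element of the transitive model `M`: the graphs of the operations and of the order are
elements of `M` -/
def StrIn (A : {x // x ∈ M}) (N : Str {x : ZFSet.{0} // x ∈ A.1}) : Prop :=
  (∃ a ∈ M, ∀ x y z, ZFSet.pair (ZFSet.pair x.1 y.1) z.1 ∈ a ↔ N.add x y = z) ∧
  (∃ m ∈ M, ∀ x y z, ZFSet.pair (ZFSet.pair x.1 y.1) z.1 ∈ m ↔ N.mul x y = z) ∧
  ∃ l ∈ M, ∀ x y, ZFSet.pair x.1 y.1 ∈ l ↔ N.lt x y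

/-- in the transitive model `M`, the structure `N` with the universe `A` is an `ℵ₂`-Kaufmann model,
where `w = ω₂`: a recursively saturated model of Peano arithmetic, which is `ℵ₂`-like (it has `ℵ₂`
elements, but every element has fewer than `ℵ₂` predecessors) and rather classless (every set `Y` of
elements, such that all the sets `{x ∈ Y | x < a}` are definable with parameters, is definable
with parameters) -/
def IsKaufmann (w A : {x // x ∈ M}) (N : Str {x : ZFSet.{0} // x ∈ A.1}) : Prop :=
  StrIn M A N ∧ IsPA N ∧ CardEq (Mem M) A w ∧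
    (∀ a : {x : ZFSet.{0} // x ∈ A.1}, ∃ L : {x // x ∈ M},
      (∀ x, x ∈ L.1 ↔ ∃ h : x ∈ A.1, N.lt ⟨x, h⟩ a) ∧ CardLt (Mem M) L w) ∧
    IsRecSat N ∧
    ∀ Y ∈ M, (∀ a : {x : ZFSet.{0} // x ∈ A.1}, IsDef N {x | x.1 ∈ Y ∧ N.lt x a}) →
      IsDef N {x | x.1 ∈ Y}

/-- `M` is a countable transitive model of ZFC in which there is an `ℵ₂`-Aronszajn tree, but there is
no `ℵ₂`-Kaufmann model -/
def IsCounterexample : Prop :=
  M.IsTransitive ∧ {z | z ∈ M}.Countable ∧ ZFC (Mem M) ∧
    ∃ u w : {x // x ∈ M}, IsOmega1 (Mem M) u ∧ IsOmega2 (Mem M) u w ∧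
      (∃ T R, IsAronszajn (Mem M) w T R) ∧ ¬ ∃ A N, IsKaufmann M w A N

end

end Pool.Agent.Helper23.KB
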