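import Pool.Agent.Helper23.KB.Wn
import Pool.Agent.Helper23.KB.Defs

set_option autoImplicit false

/-!
# The cardinals `ω₁` and `ω₂` of the generic model
-/

universe u v w

namespace Pool.Agent.Helper23.KB

open CK hiding K1 K2
open WT (iffV bElim bOr bMP bImp bNot bAbs bAll bEx bIff bIff_mp bIff_mpr bLeft bRight bCases bContra eq_of_forall iffV_self iffV_eq_top)
open WT (Fm ZF ZM)
open Nm
open Helper84.Kauf (K1 K2 IsDistributive mk_K1 mk_K2 mk_Iio_K1 mk_Iio_K2 aleph_two)
open scoped Cardinal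

section
variable {P : Type} [Preorder P] {S : Set (Nm P)} {U : Set (RO P)} (hG : Gen S U)

/-- `ω₁` -/
noncomputable abbrev n1 (P : Type) [Preorder P] : Nm P := on P K1

/-- `ω₂` -/
noncomputable abbrev n2 (P : Type) [Preorder P] : Nm P := on P K2

theorem isOmega1' (hn : ∀ n, Nm.nat n ∈ S) (ho : Nm.omg ∈ S) (h1 : n1 P ∈ S)
    (hd : IsDistributive (RO P)) : IsOmega1 ZM.E (hG.el (n1 P) h1) := by
  have hom := hG.isOm hn
  have hom' : IsOm (hG.el Nm.omg ho).1 := hom
  refine ⟨isOrdinal_iff.2 (val_on_ord hG), ?_, ?_⟩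
  · rw [isCountable_iff hom']
    intro h
    have h1 := ((hG.tr_inj).iff_mem ![n1 P, Nm.omg] (by intro i; fin_cases i <;> assumption)).1
      (CardLe.inj h)
    have h2 : (⨆ f : Nm P, InjB f (n1 P) Nm.omg) = ⊥ := by
      rw [iSup_eq_bot]; exact injB_omg hd mk_K1
    have h3 : (⨆ f : Nm P, InjB f (n1 P) Nm.omg) ∈ U := h1
    rw [h2] at h3
    exact hG.bot h3
  · intro a ha
    rw [isCountable_iff hom']
    obtain ⟨β, hS, e⟩ := (mem_val_on hG).1 ha
    have e' : a = hG.el (wn β) hS := Subtype.ext e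
    subst e'
    have hc : Countable {b : K1 // b < β} := mk_Iio_K1 β
    obtain ⟨f, hf⟩ := hc.exists_injective_nat
    obtain ⟨c, hc1, hc2⟩ := ((hG.tr_list).iff_mem ![Nm.omg, wn β] (by
      intro i; fin_cases i <;> assumption)).2 (hG.up _ hG.top _ (by
        refine bEx (Nm.mk {b : K1 // b < β} (fun γ => opair (nat (f γ)) (wn γ.1)) (fun _ => ⊤))
          (le_inf ?_ ?_)
        · refine funB_pairs (a := fun γ : {b : K1 // b < β} => (nat (f γ) : Nm P))
            (b := fun γ : {b : K1 // b < β} => wn γ.1) fun i j Γ _ _ h => ?_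
          by_cases hij : i = j
          · rw [hij]; exact bRefl _
          · exact (eq_nat_nat (fun h' => hij (hf h')) h).trans bot_le
        · refine le_iInf fun x => bImp fun Δ _ h2 => ?_
          have h2' : Δ ≤ Nm.mem x (wn β) := h2
          rw [mem_wn] at h2'
          refine bElim h2' fun γ Δ' h3 h4 => ?_
          refine bEx (nat (f γ)) (le_inf nat_mem_omg ?_)
          exact bPairs (a := fun γ : {b : K1 // b < β} => (nat (f γ) : Nm P))
            (b := fun γ : {b : K1 // b < β} => wn γ.1) γ le_top (bRefl _) h4))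
    exact cardLe_of_list (c := c) hom.ord hc2 hc1

theorem isOmega2' (h1 : n1 P ∈ S) (h2 : n2 P ∈ S)
    (hd : IsDistributive (RO P)) : IsOmega2 ZM.E (hG.el (n1 P) h1) (hG.el (n2 P) h2) := by
  refine ⟨isOrdinal_iff.2 (val_on_ord hG), ?_, ?_⟩
  · intro h
    have h1 := ((hG.tr_inj).iff_mem ![n2 P, n1 P] (by intro i; fin_cases i <;> assumption)).1
      (CardLe.inj h)
    have h2 : (⨆ f : Nm P, InjB f (n2 P) (n1 P)) = ⊥ := by
      rw [iSup_eq_bot]
      refine injB_on hd mk_K1.le ?_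
      rw [mk_K1, mk_K2, aleph_two]
      exact Order.lt_succ _
    have h3 : (⨆ f : Nm P, InjB f (n2 P) (n1 P)) ∈ U := h1
    rw [h2] at h3
    exact hG.bot h3
  · intro a ha
    obtain ⟨β, hS, e⟩ := (mem_val_on hG).1 ha
    have e' : a = hG.el (wn β) hS := Subtype.ext e
    subst e'
    have hc : #{b : K2 // b < β} ≤ #K1 := by
      rw [mk_K1]
      exact mk_Iio_K2 β
    obtain ⟨f⟩ := hc
    obtain ⟨c, hc1, hc2⟩ := ((hG.tr_list).iff_mem ![n1 P, wn β] (by
      intro i; fin_cases i <;> assumption)).2 (hG.up _ hG.top _ (list_wn_lt β f.1 f.2))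
    exact cardLe_of_list (c := c) (val_on_ord hG) hc2 hc1

end

end Pool.Agent.Helper23.KB
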