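import Pool.Agent.Helper23.KB.Defs
import Pool.Agent.Helper23.CK.KY

set_option autoImplicit false
set_option linter.unreachableTactic false
set_option linter.unusedTactic false

/-!
# Trees with a level relation in a transitive model
-/

universe u v w

namespace Pool.Agent.Helper23.KB

open CK
open WT (ZF ZM D1 F1 DF IsFun App IsOmega IsInductive IsFn opair prod pow exists_sep
  app_iff isFun_iff opair_inj opair_mem_prod mem_prod mem_pow)

section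
variable {M : ZFSet.{0}} [TM M]

/-- a tree with the order `R` and the levels `L` -/
structure LTree (W T R L : Mo M) : Prop where
  ord : W.1.IsOrdinal
  lev : ∀ x ξ, ZM.E x T → ZM.E (opair x ξ) L → ZM.E ξ W
  t1 : ∀ x, ZM.E x T → ¬ ZM.E (opair x x) R
  t2 : ∀ x y z, ZM.E x T → ZM.E y T → ZM.E z T → ZM.E (opair x y) R → ZM.E (opair y z) R →
    ZM.E (opair x z) R
  t3 : ∀ x, ZM.E x T → ∃ ξ, ZM.E (opair x ξ) L
  t4 : ∀ x ξ ζ, ZM.E x T → ZM.E (opair x ξ) L → ZM.E (opair x ζ) L → ξ = ζ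
  t5 : ∀ x y ξ ζ, ZM.E x T → ZM.E y T → ZM.E (opair x y) R → ZM.E (opair x ξ) L →
    ZM.E (opair y ζ) L → ZM.E ξ ζ
  t6 : ∀ y ξ ζ, ZM.E y T → ZM.E (opair y ζ) L → ZM.E ξ ζ →
    ∃ x, ZM.E x T ∧ ZM.E (opair x y) R ∧ ZM.E (opair x ξ) L
  t7 : ∀ y x x' ξ, ZM.E y T → ZM.E x T → ZM.E x' T → ZM.E (opair x y) R → ZM.E (opair x' y) R →
    ZM.E (opair x ξ) L → ZM.E (opair x' ξ) L → x = x'
  t8 : ∀ ξ, ZM.E ξ W → ∃ x, ZM.E x T ∧ ZM.E (opair x ξ) L
  t9 : ∀ ξ, ZM.E ξ W → ∃ γ c, ZM.E γ W ∧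
    (∀ x, ZM.E x T → ZM.E (opair x ξ) L → ∃ y, ZM.E y γ ∧ ZM.E (opair y x) c) ∧
    ∀ y x x', ZM.E (opair y x) c → ZM.E (opair y x') c → x = x'

namespace LTree

variable {W T R L : Mo M} (h : LTree W T R L)
include h

theorem below {s t : Mo M} {ξ ζ : Mo M} (ht : ZM.E t T) (hs : ZM.E s T) (hst : ZM.E (opair s t) R)
    (hζ : ZM.E (opair s ζ) L) (hξ : ZM.E ξ ζ) {x : Mo M} (hx : ZM.E x T) (hxt : ZM.E (opair x t) R)
    (hxξ : ZM.E (opair x ξ) L) : ZM.E (opair x s) R := by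
  obtain ⟨y, hy, hys, hyξ⟩ := h.t6 s ξ ζ hs hζ hξ
  have h1 := h.t2 y s t hy hs ht hys hst
  rw [h.t7 t x y ξ ht hx hy hxt h1 hxξ hyξ]
  exact hys

theorem isTree : IsTree ZM.E T R := by
  refine ⟨fun x hx => ?_, fun x y z hx hy hz => ?_, fun t ht B hB hB' => ?_⟩
  · rw [app_iff]; exact h.t1 x hx
  · rw [app_iff, app_iff, app_iff]; exact h.t2 x y z hx hy hz
  · have hB'' : ∀ x, ZM.E x B → ZM.E x T ∧ ZM.E (opair x t) R := fun x hx =>
      ⟨(hB' x hx).1, app_iff.1 (hB' x hx).2⟩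
    obtain ⟨ξ, ⟨x, hx, hxξ⟩, hm⟩ := exists_min (P := fun ξ => ∃ x, ZM.E x B ∧ ZM.E (opair x ξ) L) (by
      obtain ⟨x, hx⟩ := hB
      obtain ⟨ξ, hξ⟩ := h.t3 x (hB'' x hx).1
      exact ⟨ξ, x, hx, hξ⟩)
    refine ⟨x, hx, fun y hy => ?_⟩
    obtain ⟨η, hη⟩ := h.t3 y (hB'' y hy).1
    have hξW := h.lev x ξ (hB'' x hx).1 hxξ
    have hηW := h.lev y η (hB'' y hy).1 hη
    rcases (h.ord.mem hξW).mem_trichotomous (h.ord.mem hηW) with h1 | h1 | h1
    · right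
      rw [app_iff]
      exact h.below ht (hB'' y hy).1 (hB'' y hy).2 hη h1 (hB'' x hx).1 (hB'' x hx).2 hxξ
    · left
      have e : ξ = η := Subtype.ext h1
      subst e
      exact h.t7 t y x ξ ht (hB'' y hy).1 (hB'' x hx).1 (hB'' y hy).2 (hB'' x hx).2 hη hxξ
    · exact (hm η h1 ⟨y, hy, hη⟩).elim

theorem height {t a : Mo M} (ht : ZM.E t T) (ha : ZM.E (opair t a) L) :
    HasHeight ZM.E T R t a := by
  have haW := h.lev t a ht ha
  obtain ⟨f, hf⟩ := exists_sep (P := fun p : Mo M => ∃ b s, p = opair b s ∧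
    ZM.E (opair s t) R ∧ ZM.E (opair s b) L)
    (by open WT in (repeat' first
      | with_reducible apply DF.opair
      | with_reducible assumption
      | with_reducible exact DF.var _ | with_reducible exact DF.const _
      | with_reducible exact Dfn.const _ | with_reducible apply Dfn.mem
      | with_reducible apply Dfn.eq | with_reducible apply Dfn.and
      | with_reducible apply Dfn.ex)) (prod a T)
  have hf' : ∀ b s, ZM.E (opair b s) f ↔ (ZM.E b a ∧ ZM.E s T) ∧ ZM.E (opair s t) R ∧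
      ZM.E (opair s b) L := by
    intro b s
    rw [hf, opair_mem_prod]
    constructor
    · rintro ⟨h1, b', s', e, h2⟩
      obtain ⟨rfl, rfl⟩ := opair_inj.1 e
      exact ⟨h1, h2⟩
    · rintro ⟨h1, h2⟩
      exact ⟨h1, b, s, rfl, h2⟩
  refine hasHeight_iff.2 ⟨isOrdinal_iff.2 (h.ord.mem haW), f, ⟨fun p hp => ?_, fun b hb => ?_⟩,
    fun b s hbs => ?_, fun s hs hst => ?_, fun b b' s s' h1 h2 => ?_⟩
  · obtain ⟨h1, _⟩ := (hf p).1 hp
    obtain ⟨x, y, hx, hy, rfl⟩ := mem_prod.1 h1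
    exact ⟨x, y, hx, hy, rfl⟩
  · obtain ⟨s, hs, hst, hsb⟩ := h.t6 t b a ht ha hb
    refine ⟨s, (hf' _ _).2 ⟨⟨hb, hs⟩, hst, hsb⟩, fun s' hs' => ?_⟩
    obtain ⟨⟨_, h1⟩, h2, h3⟩ := (hf' _ _).1 hs'
    exact h.t7 t s' s b ht h1 hs h2 hst h3 hsb
  · exact ((hf' _ _).1 hbs).2.1
  · obtain ⟨b, hb⟩ := h.t3 s hs
    exact ⟨b, (hf' _ _).2 ⟨⟨h.t5 s t b a hs ht hst hb ha, hs⟩, hst, hb⟩⟩
  · obtain ⟨⟨_, h3⟩, h4, h5⟩ := (hf' _ _).1 h1
    obtain ⟨⟨_, h6⟩, h7, h8⟩ := (hf' _ _).1 h2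
    constructor
    · intro hbb
      exact h.below ht h6 h7 h8 hbb h3 h4 h5
    · intro hss
      exact h.t5 s s' b b' h3 h6 hss h5 h8

theorem height_iff {t a : Mo M} (ht : ZM.E t T) :
    HasHeight ZM.E T R t a ↔ ZM.E (opair t a) L := by
  refine ⟨fun ha => ?_, h.height ht⟩
  obtain ⟨ξ, hξ⟩ := h.t3 t ht
  rw [height_unique ha (h.height ht hξ)]
  exact hξ

theorem isAronszajn (hb : ¬ ∃ b : Mo M, (∀ x, ZM.E x b → ZM.E x T) ∧
      (∀ x y, ZM.E x b → ZM.E y b → x = y ∨ ZM.E (opair x y) R ∨ ZM.E (opair y x) R) ∧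
      ∀ ξ, ZM.E ξ W → ∃ t, ZM.E t b ∧ ZM.E (opair t ξ) L) : IsAronszajn ZM.E W T R := by
  refine ⟨h.isTree, fun t ht => ?_, fun a ha => ?_, ?_⟩
  · obtain ⟨ξ, hξ⟩ := h.t3 t ht
    exact ⟨ξ, h.lev t ξ ht hξ, h.height ht hξ⟩
  · obtain ⟨La, hLa⟩ := exists_sep (P := fun t : Mo M => ZM.E (opair t a) L)
      (by open WT in (repeat' first
      | with_reducible apply DF.opair
      | with_reducible assumption
      | with_reducible exact DF.var _ | with_reducible exact DF.const _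
      | with_reducible exact Dfn.const _ | with_reducible apply Dfn.mem)) T
    refine ⟨La, fun t => ?_, ?_, ?_⟩
    · rw [hLa]
      exact and_congr_right fun ht => (h.height_iff ht).symm
    · obtain ⟨x, hx, hxa⟩ := h.t8 a ha
      exact ⟨x, (hLa x).2 ⟨hx, hxa⟩⟩
    · obtain ⟨γ, c, hγ, h1, h2⟩ := h.t9 a ha
      refine ⟨γ, hγ, cardLe_of_list (c := c) (h.ord.mem hγ) (fun s hs => ?_) h2⟩
      obtain ⟨h3, h4⟩ := (hLa s).1 hs
      exact h1 s h3 h4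
  · rintro ⟨b, h1, h2, h3⟩
    refine hb ⟨b, h1, fun x y hx hy => ?_, fun ξ hξ => ?_⟩
    · have := h2 x y hx hy
      rwa [app_iff, app_iff] at this
    · obtain ⟨t, ht, hh⟩ := h3 ξ hξ
      exact ⟨t, ht, (h.height_iff (h1 t ht)).1 hh⟩

end LTree

end

end Pool.Agent.Helper23.KB
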