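import Pool.Agent.Helper23.KB.Obj
import Pool.Agent.Helper23.KB.Tl

set_option autoImplicit false

/-!
# The Aronszajn tree in the generic model
-/

universe u v w

namespace Pool.Agent.Helper23.KB

open CK hiding K1 K2
open WT (ZF ZM iffV bElim bOr bMP bImp bNot bAbs bAll bEx bLeft bRight)
open Nm
open Helper84.Kauf (Tm BStr BTree tv smallVal kaufVal K1 K2 tv_true tv_false)
set_option linter.unusedSectionVars false

section
variable {P : Type} [Preorder P] {V : Type} [LinearOrder V] [WellFoundedLT V]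
  {W : Type} [LinearOrder W] [WellFoundedLT W]

theorem rn_snd {F : V → W → RO P} {x y : Nm P} : Nm.mem (opair x y) (rn F) ≤ Nm.mem y (on P W) := by
  rw [mem_rn']
  refine iSup_le fun p => ?_
  rw [mem_on]
  exact bEx p.2 (inf_le_right.trans inf_le_right)

theorem fun_rn {F : V → W → RO P} {Γ : RO P} (h : ∀ a b b', Γ ≤ (F a b ⊓ F a b' ⇨ tv (RO P) (b = b')))
    {x y y' : Nm P} (h1 : Γ ≤ Nm.mem (opair x y) (rn F)) (h2 : Γ ≤ Nm.mem (opair x y') (rn F)) :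
    Γ ≤ Nm.eq y y' := by
  rw [mem_rn'] at h1 h2
  refine bElim h1 fun p Δ h3 h4 => bElim (h3.trans h2) fun q Δ' h5 h6 => ?_
  obtain ⟨a, b⟩ := p
  obtain ⟨a', b'⟩ := q
  have h4' := h5.trans h4
  by_cases ha : a = a'
  · subst ha
    have h7 : Δ' ≤ tv (RO P) (b = b') :=
      bMP ((h5.trans h3).trans (h a b b')) (le_inf (bLeft h4') (bLeft h6))
    by_cases hb : b = b'
    · subst hb
      exact bTrans (bRight (bRight h4')) (bSymm (bRight (bRight h6)))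
    · rw [tv_false hb] at h7
      exact h7.trans bot_le
  · exact (eq_wn ha (bTrans (bSymm (bLeft (bRight h4'))) (bLeft (bRight h6)))).trans bot_le

end

section
variable {P A : Type} [Preorder P] [LinearOrder A] [WellFoundedLT A] [Nonempty A]
variable {T : BTree (RO P) A} {S : Set (Obj P A)} {U : Set (RO P)}

theorem GK.exK (h : GK T S U) {k : ℕ} {l : List (Obj P A)} (hl : Ls S l) (g : K2 → RO P)
    (hs : (⨆ ξ, g ξ) ∈ U) (hg : ∀ o, FT T k (nth (inj Nm.emp) l) o = g (o.v 0)) :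
    ∃ ξ, (inj (wn ξ) : Obj P A) ∈ S ∧ g ξ ∈ U := by
  obtain ⟨_, ⟨o, ho, rfl⟩, h1⟩ := h.flt.iSup_ex (h.wt (fun o => o.v 0)
    (fun ξ => { (inj Nm.emp : Obj P A) with v := fun _ => ξ }) (fun _ => rfl) g (h.ft k l hl) hg) hs
  exact ⟨_, h.wn_v ho 0, h1⟩

theorem GK.exA (h : GK T S U) {k : ℕ} {l : List (Obj P A)} (hl : Ls S l) (g : A → RO P)
    (hs : (⨆ ξ, g ξ) ∈ U) (hg : ∀ o, FT T k (nth (inj Nm.emp) l) o = g (o.u 0)) :
    ∃ ξ, (inj (wn ξ) : Obj P A) ∈ S ∧ g ξ ∈ U := by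
  obtain ⟨_, ⟨o, ho, rfl⟩, h1⟩ := h.flt.iSup_ex (h.wt (fun o => o.u 0)
    (fun ξ => { (inj Nm.emp : Obj P A) with u := fun _ => ξ }) (fun _ => rfl) g (h.ft k l hl) hg) hs
  exact ⟨_, h.wn_u ho 0, h1⟩

theorem ls1 {a : Obj P A} (ha : a ∈ S) : Ls S [a] := by
  intro x hx
  rw [List.mem_singleton] at hx
  rw [hx]; exact ha

theorem ls2 {a b : Obj P A} (ha : a ∈ S) (hb : b ∈ S) : Ls S [a, b] := by
  intro x hx
  simp only [List.mem_cons, List.not_mem_nil, or_false] at hx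
  rcases hx with rfl | rfl <;> assumption

variable [Nonempty P]

theorem GK.memT (h : GK T S U) (hT : (inj (sn T.U) : Obj P A) ∈ S) {x : Mo h.gen.M}
    (hx : ZM.E x (h.gen.el _ hT)) : ∃ (a : A) (ha : (inj (wn a) : Obj P A) ∈ S),
      T.U a ∈ U ∧ x = h.gen.el (wn a) ha := by
  obtain ⟨a, ha, h1, e⟩ := (mem_val_sn h.gen).1 hx
  exact ⟨a, ha, h1, Subtype.ext e⟩

theorem GK.memR (h : GK T S U) {F : A → A → RO P} (hR : (inj (rn F) : Obj P A) ∈ S) {a b : A}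
    (ha : (inj (wn a) : Obj P A) ∈ S) (hb : (inj (wn b) : Obj P A) ∈ S) :
    ZM.E (WT.opair (h.gen.el (wn a) ha) (h.gen.el (wn b) hb)) (h.gen.el _ hR) ↔ F a b ∈ U := by
  rw [pair_iff (hG := h.gen) ha hb hR, mem_rn]

theorem GK.memL (h : GK T S U) {F : A → K2 → RO P} (hL : (inj (rn F) : Obj P A) ∈ S) {a : A} {b : K2}
    (ha : (inj (wn a) : Obj P A) ∈ S) (hb : (inj (wn b) : Obj P A) ∈ S) :
    ZM.E (WT.opair (h.gen.el (wn a) ha) (h.gen.el (wn b) hb)) (h.gen.el _ hL) ↔ F a b ∈ U := by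
  rw [pair_iff (hG := h.gen) ha hb hL, mem_rn]

theorem GK.memL' (h : GK T S U) (hn2 : (inj (n2 P) : Obj P A) ∈ S)
    {F : A → K2 → RO P} (hL : (inj (rn F) : Obj P A) ∈ S) {x ξ : Mo h.gen.M}
    (hx : ZM.E (WT.opair x ξ) (h.gen.el _ hL)) : ∃ (b : K2) (hb : (inj (wn b) : Obj P A) ∈ S),
      ξ = h.gen.el (wn b) hb := by
  have e : ∀ y : Mo h.gen.M, h.gen.el (h.gen.rep y) (h.gen.rep_mem y) = y := fun y =>
    Subtype.ext (h.gen.val_rep y)
  rw [← e x, ← e ξ, pair_iff (hG := h.gen) (h.gen.rep_mem x) (h.gen.rep_mem ξ) hL] at hx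
  have h1 := (h.gen.mem_iff (h.gen.rep_mem ξ) hn2).1 (h.gen.up _ hx _ rn_snd)
  obtain ⟨b, hb, e'⟩ := (mem_val_on h.gen).1 h1
  refine ⟨b, hb, Subtype.ext ?_⟩
  rw [← h.gen.val_rep ξ]
  exact e'

theorem GK.ltree (h : GK T S U) (hv : T.treeVal = ⊤) (hn2 : (inj (n2 P) : Obj P A) ∈ S)
    (hT : (inj (sn T.U) : Obj P A) ∈ S) (hR : (inj (rn T.lt) : Obj P A) ∈ S)
    (hL : (inj (rn T.lev) : Obj P A) ∈ S) :
    LTree (M := h.gen.M) (h.gen.el (n2 P) hn2) (h.gen.el _ hT) (h.gen.el _ hR) (h.gen.el _ hL) := by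
  have hU := h.flt
  have hv' : T.treeVal ∈ U := by rw [hv]; exact hU.top
  unfold Helper84.Kauf.BTree.treeVal at hv'
  have c9 := hU.right hv'
  have d8 := hU.left hv'
  have c8 := hU.right d8
  have d7 := hU.left d8
  have c7 := hU.right d7
  have d6 := hU.left d7
  have c6 := hU.right d6
  have d5 := hU.left d6
  have c5 := hU.right d5
  have d4 := hU.left d5
  have c4 := hU.right d4
  have d3 := hU.left d4
  have c3 := hU.right d3
  have d2 := hU.left d3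
  have c2 := hU.right d2
  have c1 := hU.left d2
  clear d8 d7 d6 d5 d4 d3 d2 hv'
  have htv : ∀ {p : Prop}, tv (RO P) p ∈ U → p := fun {p} hp => ((TF.tv' hU p).iff' hU).1 hp
  have hT' : ∀ (a : A) (ha : (inj (wn a) : Obj P A) ∈ S), T.U a ∈ U →
      ZM.E (h.gen.el (wn a) ha) (h.gen.el _ hT) := fun a ha h1 => (mem_val_sn h.gen).2 ⟨a, ha, h1, rfl⟩
  refine ⟨val_on_ord h.gen, ?_, ?_, ?_, ?_, ?_, ?_, ?_, ?_, ?_, ?_⟩
  · intro x ξ _ h1
    obtain ⟨b, hb, rfl⟩ := h.memL' hn2 hL h1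
    exact (mem_val_on h.gen).2 ⟨b, hb, rfl⟩
  · intro x hx h1
    obtain ⟨a, ha, hUa, rfl⟩ := h.memT hT hx
    rw [h.memR] at h1
    exact hU.not_both (hU.inf _ hUa _ h1) (hU.iInf_at c1 a)
  · intro x y z hx hy hz h1 h2
    obtain ⟨a, ha, hUa, rfl⟩ := h.memT hT hx
    obtain ⟨b, hb, hUb, rfl⟩ := h.memT hT hy
    obtain ⟨c, hc, hUc, rfl⟩ := h.memT hT hz
    rw [h.memR] at h1 h2 ⊢
    exact hU.mp (hU.iInf_at (hU.iInf_at (hU.iInf_at c2 a) b) c)
      (hU.inf _ (hU.inf _ (hU.inf _ (hU.inf _ hUa _ hUb) _ hUc) _ h1) _ h2)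
  · intro x hx
    obtain ⟨a, ha, hUa, rfl⟩ := h.memT hT hx
    obtain ⟨o, ho, eo⟩ := h.ex_u 1 (fun _ => a) (fun _ => ha)
    have eo := eo 0 Nat.one_pos
    obtain ⟨ξ, hξ, h1⟩ := h.exK (k := 0) (ls1 ho) (fun ξ => T.lev (o.u 0) ξ) (by
      rw [eo]
      exact hU.mp (hU.iInf_at c3 a) hUa) (fun _ => rfl)
    rw [eo] at h1
    exact ⟨_, (h.memL hL ha hξ).2 h1⟩
  · intro x ξ ζ hx h1 h2
    obtain ⟨a, ha, hUa, rfl⟩ := h.memT hT hx
    obtain ⟨b, hb, rfl⟩ := h.memL' hn2 hL h1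
    obtain ⟨c, hc, rfl⟩ := h.memL' hn2 hL h2
    rw [h.memL] at h1 h2
    have h3 := htv (hU.mp (hU.iInf_at (hU.iInf_at (hU.iInf_at c4 a) b) c)
      (hU.inf _ (hU.inf _ hUa _ h1) _ h2))
    subst h3
    rfl
  · intro x y ξ ζ hx hy h0 h1 h2
    obtain ⟨a, ha, hUa, rfl⟩ := h.memT hT hx
    obtain ⟨a', ha', hUa', rfl⟩ := h.memT hT hy
    obtain ⟨b, hb, rfl⟩ := h.memL' hn2 hL h1
    obtain ⟨c, hc, rfl⟩ := h.memL' hn2 hL h2
    rw [h.memL] at h1 h2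
    rw [h.memR] at h0
    have h3 := htv (hU.mp (hU.iInf_at (hU.iInf_at (hU.iInf_at (hU.iInf_at c5 a) a') b) c)
      (hU.inf _ (hU.inf _ (hU.inf _ (hU.inf _ hUa _ hUa') _ h0) _ h1) _ h2))
    exact (val_wn_mem h.gen hb).2 h3
  · intro y ξ ζ hy h1 h2
    obtain ⟨a, ha, hUa, rfl⟩ := h.memT hT hy
    obtain ⟨c, hc, rfl⟩ := h.memL' hn2 hL h1
    rw [h.memL] at h1
    obtain ⟨b, hbc, hb, e⟩ := (mem_val_wn h.gen).1 h2
    have e' : ξ = h.gen.el (wn b) hb := Subtype.ext e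
    subst e'
    obtain ⟨o, ho, eo⟩ := h.ex_u 1 (fun _ => a) (fun _ => ha)
    have eo := eo 0 Nat.one_pos
    obtain ⟨o', ho', eo'⟩ := h.ex_v 1 (fun _ => b) (fun _ => hb)
    have eo' := eo' 0 Nat.one_pos
    obtain ⟨x, hx, h3⟩ := h.exA (k := 1) (ls2 ho ho')
      (fun x => T.U x ⊓ T.lt x (o.u 0) ⊓ T.lev x (o'.v 0)) (by
        rw [eo, eo']
        refine hU.mp (hU.iInf_at (hU.iInf_at (hU.iInf_at c6 a) b) c) (hU.inf _ (hU.inf _ hUa _ h1) _ ?_)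
        rw [tv_true hbc]
        exact hU.top) (fun _ => rfl)
    rw [eo, eo'] at h3
    exact ⟨_, hT' x hx (hU.left (hU.left h3)), (h.memR hR hx ha).2 (hU.right (hU.left h3)),
      (h.memL hL hx hb).2 (hU.right h3)⟩
  · intro y x x' ξ hy hx hx' h1 h2 h3 h4
    obtain ⟨a, ha, hUa, rfl⟩ := h.memT hT hy
    obtain ⟨b, hb, hUb, rfl⟩ := h.memT hT hx
    obtain ⟨b', hb', hUb', rfl⟩ := h.memT hT hx'
    obtain ⟨c, hc, rfl⟩ := h.memL' hn2 hL h3
    rw [h.memL] at h3 h4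
    rw [h.memR] at h1 h2
    have h5 := htv (hU.mp (hU.iInf_at (hU.iInf_at (hU.iInf_at (hU.iInf_at c7 a) b) b') c)
      (hU.inf _ (hU.inf _ (hU.inf _ (hU.inf _ (hU.inf _ (hU.inf _ hUa _ hUb) _ hUb') _ h1) _ h2)
        _ h3) _ h4))
    subst h5
    rfl
  · intro ξ hξ
    obtain ⟨c, hc, e⟩ := (mem_val_on h.gen).1 hξ
    have e' : ξ = h.gen.el (wn c) hc := Subtype.ext e
    subst e'
    obtain ⟨o, ho, eo⟩ := h.ex_v 1 (fun _ => c) (fun _ => hc)
    have eo := eo 0 Nat.one_pos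
    obtain ⟨x, hx, h3⟩ := h.exA (k := 2) (ls1 ho) (fun x => T.U x ⊓ T.lev x (o.v 0)) (by
        rw [eo]
        exact hU.iInf_at c8 c) (fun _ => rfl)
    rw [eo] at h3
    exact ⟨_, hT' x hx (hU.left h3), (h.memL hL hx hc).2 (hU.right h3)⟩
  · intro ξ hξ
    obtain ⟨c, hc, e⟩ := (mem_val_on h.gen).1 hξ
    have e' : ξ = h.gen.el (wn c) hc := Subtype.ext e
    subst e'
    obtain ⟨o, ho, eo⟩ := h.ex_v 1 (fun _ => c) (fun _ => hc)
    have eo := eo 0 Nat.one_pos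
    have h1 := hU.iInf_at c9 c
    unfold Helper84.Kauf.smallVal at h1
    have h1' : (⨆ i : K2 × (A → K2 → RO P),
        (⨅ x, T.U x ⊓ T.lev x c ⇨ ⨆ y, tv (RO P) (y < i.1) ⊓ i.2 x y) ⊓
        (⨅ x, ⨅ x', ⨅ y, i.2 x y ⊓ i.2 x' y ⇨ tv (RO P) (x = x'))) ∈ U := by
      rw [iSup_prod]
      exact h1
    obtain ⟨_, ⟨i, hi, rfl⟩, h2⟩ := hU.iSup_ex (h.wt (fun o => (o.v 0, o.G))
      (fun i => { (inj Nm.emp : Obj P A) with v := fun _ => i.1, G := i.2 }) (fun _ => rfl) _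
      (h.ft 3 [o] (ls1 ho)) (fun i => by
        show (⨅ x, T.U x ⊓ T.lev x (o.v 0) ⇨ _) ⊓ _ = _
        rw [eo])) h1'
    simp only at h2
    have h3 := hU.left h2
    have h4 := hU.right h2
    have hc' : (inj (rn fun y x => i.G x y) : Obj P A) ∈ S := h.op (6, 0) [i] (ls1 hi)
    refine ⟨h.gen.el (wn (i.v 0)) (h.wn_v hi 0), h.gen.el _ hc',
      (mem_val_on h.gen).2 ⟨_, h.wn_v hi 0, rfl⟩, ?_, ?_⟩
    · intro x hx hxξ
      obtain ⟨a, ha, hUa, rfl⟩ := h.memT hT hx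
      rw [h.memL] at hxξ
      obtain ⟨o', ho', eo'⟩ := h.ex_u 1 (fun _ => a) (fun _ => ha)
      have eo' := eo' 0 Nat.one_pos
      obtain ⟨y, hy, h5⟩ := h.exK (k := 4) (ls2 ho' hi)
        (fun y => tv (RO P) (y < i.v 0) ⊓ i.G (o'.u 0) y) (by
          rw [eo']
          exact hU.mp (hU.iInf_at h3 a) (hU.inf _ hUa _ hxξ)) (fun _ => rfl)
      rw [eo'] at h5
      refine ⟨h.gen.el (wn y) hy, (val_wn_mem h.gen hy).2 (htv (hU.left h5)), ?_⟩
      rw [pair_iff (hG := h.gen) hy ha hc', mem_rn]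
      exact hU.right h5
    · intro y x x' h5 h6
      have e : ∀ y : Mo h.gen.M, h.gen.el (h.gen.rep y) (h.gen.rep_mem y) = y := fun y =>
        Subtype.ext (h.gen.val_rep y)
      rw [← e y, ← e x, pair_iff (hG := h.gen) (h.gen.rep_mem y) (h.gen.rep_mem x) hc'] at h5
      rw [← e y, ← e x', pair_iff (hG := h.gen) (h.gen.rep_mem y) (h.gen.rep_mem x') hc'] at h6
      have h7 := h.gen.up _ (hU.inf _ h4 _ (hU.inf _ h5 _ h6)) _ (fun_rn
        (F := fun y x => i.G x y) (fun a b b' => ?_) (inf_le_right.trans inf_le_left)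
        (inf_le_right.trans inf_le_right))
      · have h8 := (h.gen.eq_iff (h.gen.rep_mem x) (h.gen.rep_mem x')).1 h7
        rw [h.gen.val_rep, h.gen.val_rep] at h8
        exact Subtype.ext h8
      · exact inf_le_left.trans (((iInf_le _ b).trans (iInf_le _ b')).trans (iInf_le _ a))

theorem GK.no_branch (h : GK T S U) (hb : ∀ b, T.branchVal b = ⊥)
    (hn2 : (inj (n2 P) : Obj P A) ∈ S)
    (hT : (inj (sn T.U) : Obj P A) ∈ S) (hR : (inj (rn T.lt) : Obj P A) ∈ S)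
    (hL : (inj (rn T.lev) : Obj P A) ∈ S) :
    ¬ ∃ b : Mo h.gen.M, (∀ x, ZM.E x b → ZM.E x (h.gen.el _ hT)) ∧
      (∀ x y, ZM.E x b → ZM.E y b → x = y ∨ ZM.E (WT.opair x y) (h.gen.el _ hR) ∨
        ZM.E (WT.opair y x) (h.gen.el _ hR)) ∧
      ∀ ξ, ZM.E ξ (h.gen.el (n2 P) hn2) → ∃ t, ZM.E t b ∧ ZM.E (WT.opair t ξ) (h.gen.el _ hL) := by
  rintro ⟨b, h1, h2, h3⟩
  have hU := h.flt
  have hβ := h.gen.rep_mem b
  have hbr : ∀ (a : A) (ha : (inj (wn a) : Obj P A) ∈ S), T.U a ∈ U → ZM.E (h.gen.el (wn a) ha) b →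
      br T (h.gen.rep b) a ∈ U := by
    intro a ha hUa hab
    refine hU.inf _ hUa _ ((h.gen.mem_iff ha hβ).2 ?_)
    rw [h.gen.val_rep]
    exact hab
  have hbr' : ∀ (a : A) (ha : (inj (wn a) : Obj P A) ∈ S), br T (h.gen.rep b) a ∈ U →
      ZM.E (h.gen.el (wn a) ha) b := by
    intro a ha h4
    have h5 := (h.gen.mem_iff ha hβ).1 (hU.right h4)
    rw [h.gen.val_rep] at h5
    exact h5
  have hval : T.branchVal (br T (h.gen.rep b)) ∈ U := by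
    unfold Helper84.Kauf.BTree.branchVal
    refine hU.inf _ (hU.inf _ ?_ _ ?_) _ ?_
    · have e : (⨅ x, br T (h.gen.rep b) x ⇨ T.U x) = ⊤ := by
        rw [eq_top_iff]
        refine le_iInf fun x => ?_
        rw [le_himp_iff, top_inf_eq]
        exact inf_le_left
      rw [e]
      exact hU.top
    · rw [iInf_t2]
      refine Flt.iInf_of' (I := Obj.u '' S) (h.wt Obj.u
        (fun u => { (inj Nm.emp : Obj P A) with u := u }) (fun _ => rfl) _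
        (h.ft 5 [inj (h.gen.rep b)] (ls1 hβ)) (fun _ => rfl)) ?_
      rintro _ ⟨o, ho, rfl⟩ h4
      have h5 := hU.compl_himp_left h4
      have h6 := hU.compl_himp_right h4
      have hx := h.wn_u ho 0
      have hy := h.wn_u ho 1
      rcases h2 _ _ (hbr' _ hx (hU.left h5)) (hbr' _ hy (hU.right h5)) with h7 | h7 | h7
      · have e : o.u 0 = o.u 1 := val_wn_inj h.gen hx hy (congrArg Subtype.val h7)
        refine hU.not_both ?_ h6
        rw [tv_true e]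
        exact hU.up _ hU.top _ (le_sup_left.trans le_sup_left)
      · rw [h.memR] at h7
        exact hU.not_both (hU.up _ h7 _ (le_sup_right.trans le_sup_left)) h6
      · rw [h.memR] at h7
        exact hU.not_both (hU.up _ h7 _ le_sup_right) h6
    · refine Flt.iInf_of' (I := (fun o : Obj P A => o.v 0) '' S) (h.wt (fun o => o.v 0)
        (fun u => { (inj Nm.emp : Obj P A) with v := fun _ => u }) (fun _ => rfl) _
        (h.ft 6 [inj (h.gen.rep b)] (ls1 hβ)) (fun _ => rfl)) ?_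
      rintro _ ⟨o, ho, rfl⟩ h4
      have hξ := h.wn_v ho 0
      obtain ⟨t, ht, ht'⟩ := h3 (h.gen.el _ hξ) ((mem_val_on h.gen).2 ⟨_, hξ, rfl⟩)
      obtain ⟨a, ha, hUa, rfl⟩ := h.memT hT (h1 t ht)
      rw [h.memL] at ht'
      exact hU.not_both (hU.iSup_of a (hU.inf _ (hbr a ha hUa ht) _ ht')) h4
  rw [hb] at hval
  exact hU.bot hval

end

end Pool.Agent.Helper23.KB
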