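import Pool.Agent.Helper23.KB.Km
import Pool.Agent.Helper23.KB.Ta

set_option autoImplicit false

/-!
# From Boolean values to a countable transitive model
-/

universe u v w

namespace Pool.Agent.Helper23.KB

open CK hiding K1 K2
open WT (ZF ZM)
open Nm
open Helper84.Kauf (BTree K1 K2 IsDistributive NoKaufmann HasAronszajn)

theorem nonempty_of_treeVal {P A : Type} [Preorder P] [Nonempty P] {T : BTree (RO P) A}
    (hv : T.treeVal = ⊤) : Nonempty A := by
  by_contra h
  have h' : IsEmpty A := not_nonempty_iff.1 h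
  have h1 : (⊤ : RO P) ≤ ⊥ := by
    rw [← hv]
    unfold Helper84.Kauf.BTree.treeVal
    refine (inf_le_left.trans inf_le_right).trans ?_
    refine (iInf_le _ (Classical.choice K2_ne)).trans ?_
    exact iSup_le fun x => h'.elim x
  obtain ⟨p⟩ := ‹Nonempty P›
  exact h1 (show p ∈ (⊤ : RO P).carrier from trivial)

/-- if the Boolean-valued universe of `P` has no new functions on `ω₁`, no Kaufmann model and an
Aronszajn tree, then there is a countable transitive model of ZFC with an Aronszajn tree and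
without Kaufmann models -/
theorem ctm_of_ro (P : Type) [Preorder P] [Nonempty P] (h1 : IsDistributive (RO P))
    (h2 : NoKaufmann (RO P)) (h3 : HasAronszajn (RO P)) : ∃ M : ZFSet.{0}, IsCounterexample M := by
  obtain ⟨A, T, hv, hb⟩ := h3
  have hA : Nonempty A := nonempty_of_treeVal hv
  obtain ⟨inst, hwf⟩ := exists_wellOrder A
  let C : Set (Nm P) := {n1 P, n2 P, Nm.omg, sn T.U, rn T.lt, rn T.lev} ∪ Set.range Nm.nat
  have hC : C.Countable := ((Set.toFinite _).countable).union (Set.countable_range _)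
  obtain ⟨S, U, h, hS⟩ := exists_gk T C hC
  have k1 : (inj (n1 P) : Obj P A) ∈ S := hS _ (Or.inl (by simp))
  have k2 : (inj (n2 P) : Obj P A) ∈ S := hS _ (Or.inl (by simp))
  have k3 : (inj Nm.omg : Obj P A) ∈ S := hS _ (Or.inl (by simp))
  have k4 : (inj (sn T.U) : Obj P A) ∈ S := hS _ (Or.inl (by simp))
  have k5 : (inj (rn T.lt) : Obj P A) ∈ S := hS _ (Or.inl (by simp))
  have k6 : (inj (rn T.lev) : Obj P A) ∈ S := hS _ (Or.inl (by simp))
  have k7 : ∀ n, (inj (Nm.nat n) : Obj P A) ∈ S := fun n => hS _ (Or.inr ⟨n, rfl⟩)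
  refine ⟨h.gen.M, h.gen.M_transitive, h.gen.M_countable, h.gen.zfc, h.gen.el (n1 P) k1,
    h.gen.el (n2 P) k2, isOmega1' h.gen k7 k3 k1 h1, isOmega2' h.gen k1 k2 h1,
    ⟨_, _, (h.ltree hv k2 k4 k5 k6).isAronszajn (h.no_branch hb k2 k4 k5 k6)⟩, ?_⟩
  rintro ⟨A', N', hK⟩
  exact h.no_kaufmann k2 h2 A' N' hK

end Pool.Agent.Helper23.KB
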