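import Pool.Agent.Helper23.CK.Tc

set_option autoImplicit false

/-!
# Generic submodels with additional tasks
-/

universe u v w

namespace Pool.Agent.Helper23.KB

open CK
open WT (iffV bElim bOr bMP bImp bNot bAbs bAll bEx bIff bIff_mp bIff_mpr bLeft bRight bCases bContra eq_of_forall iffV_self iffV_eq_top)
open WT (Fm)

/-- the objects in a list -/
def getO {P : Type u} {O : Type v} (l : List (P ⊕ O)) : List O := l.filterMap Sum.getRight?

theorem getO_map {P : Type u} {O : Type v} (l : List O) :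
    getO (l.map Sum.inr : List (P ⊕ O)) = l := by
  unfold getO
  rw [List.filterMap_map]
  have : ((Sum.getRight? : P ⊕ O → Option O) ∘ Sum.inr : O → Option O) = some := rfl
  rw [this, List.filterMap_some]

theorem mem_getO {P : Type u} {O : Type v} {l : List (P ⊕ O)} {x : O} (h : x ∈ getO l) :
    Sum.inr x ∈ l := by
  unfold getO at h
  obtain ⟨y, hy, hy'⟩ := List.mem_filterMap.1 h
  rw [Sum.getRight?_eq_some_iff] at hy'
  rwa [← hy']

/-- the tasks for the truth lemma -/
abbrev K0 := (Σ m : ℕ, Σ n : ℕ, Fm (Fin m) n) ⊕ (Σ m : ℕ, Σ n : ℕ, Fm (Fin m) (n + 1)) ⊕ Unit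

/-- the element with the number `i` -/
def nth {O : Type v} (d : O) (l : List O) (i : ℕ) : O := l.getD i d

theorem nth_mem {O : Type v} {d : O} {S : Set O} (he : d ∈ S) {l : List O} (hl : Ls S l) (i : ℕ) :
    nth d l i ∈ S := by
  unfold nth
  by_cases h : i < l.length
  · rw [List.getD_eq_getElem _ _ h]
    exact hl _ (List.getElem_mem h)
  · rw [List.getD_eq_default _ _ (not_lt.1 h)]
    exact he

theorem nth_ofFn {O : Type v} {d : O} {k : ℕ} (g : Fin k → O) (l : List O) (i : ℕ) (hi : i < k) :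
    nth d (List.ofFn g ++ l) i = g ⟨i, hi⟩ := by
  unfold nth
  rw [List.getD_eq_getElem?_getD, List.getElem?_append_left (by simpa using hi), List.getElem?_ofFn]
  simp [hi]

theorem nth_append {O : Type v} {d : O} {k : ℕ} (g : Fin k → O) (l : List O) (i : ℕ) :
    nth d (List.ofFn g ++ l) (k + i) = nth d l i := by
  unfold nth
  rw [List.getD_eq_getElem?_getD, List.getElem?_append_right (by simp)]
  simp

variable {P : Type u} [Preorder P]

/-- the tasks for the truth lemma -/
noncomputable def F0 {O : Type v} (prj : O → Nm P) : K0 → (ℕ → O) → O → RO P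
  | Sum.inl ⟨m, _, f⟩, p, _ => vl (fun i : Fin m => prj (p i)) f (fun j => prj (p (m + j)))
  | Sum.inr (Sum.inl ⟨m, _, f⟩), p, o =>
      vl (fun i : Fin m => prj (p i)) f (Matrix.vecCons (prj o) (fun j => prj (p (m + j))))
  | Sum.inr (Sum.inr _), p, o => Nm.sub (prj (p 1)) (prj o) ⊓ Nm.eq (prj (p 0)) (prj o)

/-- generic submodels with additional tasks `F` and additional operations `op` -/
theorem exists_gen {O : Type v} (inj : Nm P → O) (prj : O → Nm P) (hpi : ∀ x, prj (inj x) = x)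
    {K : Type} [Countable K] (F : K → (ℕ → O) → O → RO P) (op : K → (ℕ → O) → O)
    (A : Set O) (hA : A.Countable) (c : RO P) (hc : c ≠ ⊥) :
    ∃ (S : Set O) (U : Set (RO P)), Gen {x | inj x ∈ S} U ∧ A ⊆ S ∧ c ∈ U ∧
      (∀ k l, Ls S l → op k (nth (inj Nm.emp) l) ∈ S) ∧ (∀ o ∈ S, inj (prj o) ∈ S) ∧
      ∀ k l, Ls S l → (⨆ i, F k (nth (inj Nm.emp) l) i)ᶜ ∈ U ∨
        ∃ i ∈ S, F k (nth (inj Nm.emp) l) i ∈ U := by
  classical
  obtain ⟨p₀, hp₀⟩ := RO.ne_bot hc
  let d : O := inj Nm.emp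
  let G : K0 ⊕ K → (ℕ → O) → O → RO P := fun k => match k with
    | Sum.inl k => F0 prj k
    | Sum.inr k => F k
  let ops : K0 ⊕ K → List (P ⊕ O) → P ⊕ O := fun k l => match k with
    | Sum.inl _ => Sum.inr (inj (prj (nth d (getO l) 0)))
    | Sum.inr k => Sum.inr (op k (nth d (getO l)))
  obtain ⟨S', p, h1, h2, h3, h4, h5, h6, h7, _, _⟩ := exists_generic (W := P ⊕ O) (Q := Unit)
    (K := K0 ⊕ K) (Sum.inl : P → P ⊕ O) Sum.inl_injective ops
    (fun k l l' => G k (nth d (getO l)) (nth d (getO l') 0)) (fun _ _ _ => ⊤)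
    (insert (Sum.inr d) (Sum.inr '' A)) ((hA.image _).insert _) p₀
  let S : Set O := {x | Sum.inr x ∈ S'}
  have hS1 : ∀ l, Ls S' l → Ls S (getO l) := fun l hl x hx => hl _ (mem_getO hx)
  have hS2 : ∀ l, Ls S l → Ls S' (l.map Sum.inr) := by
    intro l hl x hx
    obtain ⟨y, hy, rfl⟩ := List.mem_map.1 hx
    exact hl y hy
  have hemp : d ∈ S := h1 (Set.mem_insert _ _)
  have hanti : ∀ n m, n ≤ m → p m ≤ p n := fun n m h => by
    induction m, h using Nat.le_induction with
    | base => exact le_rfl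
    | succ m _ ih => exact (h3 m).trans ih
  let U : Set (RO P) := Ult p
  have hup : ∀ a ∈ U, ∀ b, a ≤ b → b ∈ U := fun a ⟨n, hn⟩ b hb => ⟨n, hb hn⟩
  have hinf : ∀ a ∈ U, ∀ b ∈ U, a ⊓ b ∈ U := by
    rintro a ⟨n, hn⟩ b ⟨m, hm⟩
    exact ⟨max n m, a.lower (hanti _ _ (le_max_left _ _)) hn, b.lower (hanti _ _ (le_max_right _ _)) hm⟩
  have hbot : ⊥ ∉ U := fun ⟨n, hn⟩ => hn
  have htask : ∀ k l, Ls S l → (⨆ i, G k (nth d l) i)ᶜ ∈ U ∨ ∃ i ∈ S, G k (nth d l) i ∈ U := by
    intro k l hl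
    obtain ⟨n, l', hl', hm⟩ := h7 k (l.map Sum.inr) (hS2 l hl)
    rcases hm with hm | hm
    · refine Or.inl ⟨n, ?_⟩
      have e : (⨆ l'' : List (P ⊕ O), G k (nth d (getO (l.map Sum.inr : List (P ⊕ O))))
          (nth d (getO l'') 0)) = ⨆ i, G k (nth d l) i := by
        rw [getO_map]
        refine le_antisymm (iSup_le fun l'' => le_iSup (fun i => G k (nth d l) i) _)
          (iSup_le fun i => ?_)
        exact le_iSup (fun l'' : List (P ⊕ O) => G k (nth d l) (nth d (getO l'') 0)) [Sum.inr i]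
      rw [← e]
      exact hm
    · refine Or.inr ⟨nth d (getO l') 0, nth_mem hemp (hS1 l' hl') 0, n, ?_⟩
      rw [getO_map] at hm
      exact hm
  have htask' : ∀ k l, Ls S l → (⨆ i, G k (nth d l) i) ∈ U → ∃ i ∈ S, G k (nth d l) i ∈ U := by
    intro k l hl h
    rcases htask k l hl with h' | h'
    · exfalso
      have := hinf _ h _ h'
      rw [inf_compl_eq_bot] at this
      exact hbot this
    · exact h'
  have hprj : ∀ o ∈ S, inj (prj o) ∈ S := by
    intro o ho
    have := h6 (Sum.inl (Sum.inr (Sum.inr ()))) [Sum.inr o] (by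
      intro x hx
      rw [List.mem_singleton] at hx
      rw [hx]
      exact ho)
    exact this
  have hcode : ∀ {m n : ℕ} (e : Fin m → Nm P) (v : Fin n → Nm P), (∀ i, inj (e i) ∈ S) →
      (∀ i, inj (v i) ∈ S) →
      Ls S (List.ofFn (fun i => inj (e i)) ++ List.ofFn (fun i => inj (v i))) ∧
      (fun i : Fin m => prj (nth d (List.ofFn (fun i => inj (e i)) ++ List.ofFn (fun i => inj (v i))) i)) = e ∧
      (fun j : Fin n => prj (nth d (List.ofFn (fun i => inj (e i)) ++ List.ofFn (fun i => inj (v i)))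
        (m + j))) = v := by
    intro m n e v he hv
    refine ⟨fun x hx => ?_, funext fun i => ?_, funext fun j => ?_⟩
    · rcases List.mem_append.1 hx with hx | hx
      · obtain ⟨i, rfl⟩ := (List.mem_ofFn' _ _).1 hx
        exact he i
      · obtain ⟨i, rfl⟩ := (List.mem_ofFn' _ _).1 hx
        exact hv i
    · rw [nth_ofFn _ _ i i.2, hpi]
    · rw [nth_append]
      have := nth_ofFn (d := d) (fun i => inj (v i)) [] j j.2
      rw [List.append_nil] at this
      rw [this, hpi]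
  refine ⟨S, U, ⟨?_, ⟨_, hemp⟩, ⟨0, trivial⟩, hbot, hup, hinf, ?_, ?_, ?_⟩, ?_, ?_, ?_, hprj, ?_⟩
  · refine h2.preimage (f := fun x => Sum.inr (inj x)) fun x y h => ?_
    have h' : inj x = inj y := Sum.inr_injective h
    rw [← hpi x, h', hpi]
  · intro m n f e v he hv
    obtain ⟨hl, h8, h9⟩ := hcode e v he hv
    have e1 : ∀ i, G (Sum.inl (Sum.inl ⟨m, n, f⟩)) (nth d (List.ofFn (fun i => inj (e i)) ++
        List.ofFn (fun i => inj (v i)))) i = vl e f v := by
      intro i
      show vl (fun i : Fin m => prj (nth _ _ i)) f (fun j => prj (nth _ _ (m + j))) = _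
      rw [h8, h9]
    rcases htask (Sum.inl (Sum.inl ⟨m, n, f⟩)) _ hl with h | ⟨i, _, h⟩
    · right
      have : Nonempty O := ⟨d⟩
      have e2 : (⨆ i, G (Sum.inl (Sum.inl ⟨m, n, f⟩)) (nth d (List.ofFn (fun i => inj (e i)) ++
        List.ofFn (fun i => inj (v i)))) i) = vl e f v := by
        simp only [e1]
        exact ciSup_const
      rwa [e2] at h
    · left
      rwa [e1] at h
  · intro m n f e v he hv h
    obtain ⟨hl, h8, h9⟩ := hcode e v he hv
    have e1 : ∀ i, G (Sum.inl (Sum.inr (Sum.inl ⟨m, n, f⟩))) (nth d (List.ofFn (fun i => inj (e i)) ++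
        List.ofFn (fun i => inj (v i)))) i = vl e f (Matrix.vecCons (prj i) v) := by
      intro i
      show vl (fun i : Fin m => prj (nth _ _ i)) f (Matrix.vecCons _ (fun j => prj (nth _ _ (m + j)))) = _
      rw [h8, h9]
    obtain ⟨i, hi, h'⟩ := htask' (Sum.inl (Sum.inr (Sum.inl ⟨m, n, f⟩))) _ hl (hup _ h _ (by
      refine iSup_le fun x => ?_
      refine le_trans (le_of_eq ?_) (le_iSup _ (inj x))
      rw [e1, hpi]))
    rw [e1] at h'
    exact ⟨_, hprj i hi, h'⟩
  · intro σ hσ τ hτ h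
    have hl : Ls S [inj σ, inj τ] := by
      intro x hx
      simp only [List.mem_cons, List.not_mem_nil, or_false] at hx
      rcases hx with rfl | rfl
      · exact hσ
      · exact hτ
    have e1 : ∀ i, G (Sum.inl (Sum.inr (Sum.inr ()))) (nth d [inj σ, inj τ]) i =
        Nm.sub τ (prj i) ⊓ Nm.eq σ (prj i) := by
      intro i
      show Nm.sub (prj (inj τ)) (prj i) ⊓ Nm.eq (prj (inj σ)) (prj i) = _
      rw [hpi, hpi]
    obtain ⟨i, hi, h'⟩ := htask' (Sum.inl (Sum.inr (Sum.inr ()))) _ hl (hup _ h _ (by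
      rw [Nm.mem_eq_sub]
      refine iSup_le fun x => ?_
      refine le_trans (le_of_eq ?_) (le_iSup _ (inj x))
      rw [e1, hpi]))
    rw [e1] at h'
    exact ⟨_, hprj i hi, hup _ h' _ inf_le_left, hup _ h' _ inf_le_right⟩
  · intro x hx
    exact h1 (Set.mem_insert_of_mem _ ⟨x, hx, rfl⟩)
  · exact ⟨0, by rw [h4]; exact hp₀⟩
  · intro k l hl
    have := h6 (Sum.inr k) (l.map Sum.inr) (hS2 l hl)
    have e : ops (Sum.inr k) (l.map Sum.inr) = Sum.inr (op k (nth d l)) := by
      show Sum.inr (op k (nth d (getO (l.map Sum.inr : List (P ⊕ O))))) = _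
      rw [getO_map]
    rw [e] at this
    exact this
  · intro k l hl
    exact htask (Sum.inr k) l hl

end Pool.Agent.Helper23.KB
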