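import Pool.Agent.Helper23.KB.Defs
import Pool.Agent.Helper84.Kauf.Val

set_option autoImplicit false

/-!
# Truth values of statements about Boolean-valued models of arithmetic
-/

universe u v w

namespace Pool.Agent.Helper23.KB

open Helper84.Kauf (Tm Fm basicAxioms IsRecType BStr tv iffV smallVal kaufVal K2 tv_true tv_false)
open Function

section
variable {B : Type} [CompleteBooleanAlgebra B]

/-- a proper filter -/
structure Flt (U : Set B) : Prop where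
  top : ⊤ ∈ U
  bot : ⊥ ∉ U
  up : ∀ a ∈ U, ∀ b, a ≤ b → b ∈ U
  inf : ∀ a ∈ U, ∀ b ∈ U, a ⊓ b ∈ U

/-- the filter knows witnesses -/
def Wt (U : Set B) {ι : Type w} (I : Set ι) (g : ι → B) : Prop :=
  (⨆ i, g i)ᶜ ∈ U ∨ ∃ i ∈ I, g i ∈ U

/-- the truth value `b` is the truth value of `p` -/
def TF (U : Set B) (b : B) (p : Prop) : Prop := (p → b ∈ U) ∧ (¬ p → bᶜ ∈ U)

variable {U : Set B}

namespace Flt
variable (hU : Flt U)
include hU

theorem not_both {b : B} (h : b ∈ U) (h' : bᶜ ∈ U) : False := by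
  have := hU.inf _ h _ h'
  rw [inf_compl_eq_bot] at this
  exact hU.bot this

theorem left {a b : B} (h : a ⊓ b ∈ U) : a ∈ U := hU.up _ h _ inf_le_left

theorem right {a b : B} (h : a ⊓ b ∈ U) : b ∈ U := hU.up _ h _ inf_le_right

theorem mp {a b : B} (h : (a ⇨ b) ∈ U) (ha : a ∈ U) : b ∈ U :=
  hU.up _ (hU.inf _ h _ ha) _ himp_inf_le

theorem iInf_at {ι : Sort*} {g : ι → B} (h : (⨅ i, g i) ∈ U) (i : ι) : g i ∈ U :=
  hU.up _ h _ (iInf_le g i)

theorem iSup_of {ι : Sort*} {g : ι → B} (i : ι) (h : g i ∈ U) : (⨆ i, g i) ∈ U :=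
  hU.up _ h _ (le_iSup g i)

theorem iSup_ex {ι : Type w} {I : Set ι} {g : ι → B} (hw : Wt U I g) (h : (⨆ i, g i) ∈ U) :
    ∃ i ∈ I, g i ∈ U := by
  rcases hw with hw | hw
  · exact (hU.not_both h hw).elim
  · exact hw

omit hU in
theorem iInf_of' {ι : Type w} {I : Set ι} {g : ι → B} (hw : Wt U I (fun i => (g i)ᶜ))
    (h : ∀ i ∈ I, (g i)ᶜ ∈ U → False) : (⨅ i, g i) ∈ U := by
  rcases hw with hw | ⟨i, hi, hw⟩
  · rw [compl_iSup] at hw
    simpa using hw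
  · exact (h i hi hw).elim

theorem iInf_of {ι : Type w} {I : Set ι} {g : ι → B} (hw : Wt U I (fun i => (g i)ᶜ))
    (h : ∀ i ∈ I, g i ∈ U) : (⨅ i, g i) ∈ U :=
  iInf_of' hw fun i hi hi' => hU.not_both (h i hi) hi'

theorem iInf_list {α : Type w} (l : List α) (b : α → B) (h : ∀ a ∈ l, b a ∈ U) :
    (⨅ a ∈ l, b a) ∈ U := by
  induction l with
  | nil => simpa using hU.top
  | cons c l ih =>
    have e : (⨅ a ∈ c :: l, b a) = b c ⊓ ⨅ a ∈ l, b a := by
      refine le_antisymm (le_inf ?_ ?_) ?_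
      · exact (iInf_le _ c).trans (iInf_le _ List.mem_cons_self)
      · exact le_iInf fun a => le_iInf fun ha => (iInf_le _ a).trans
          (iInf_le _ (List.mem_cons_of_mem _ ha))
      · refine le_iInf fun a => le_iInf fun ha => ?_
        rcases List.mem_cons.1 ha with rfl | ha
        · exact inf_le_left
        · exact inf_le_right.trans ((iInf_le _ a).trans (iInf_le _ ha))
    rw [e]
    exact hU.inf _ (h c List.mem_cons_self) _ (ih fun a ha => h a (List.mem_cons_of_mem _ ha))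

theorem compl_himp_left {a b : B} (h : (a ⇨ b)ᶜ ∈ U) : a ∈ U := by
  refine hU.up _ h _ ?_
  rw [himp_eq, compl_sup, compl_compl]
  exact inf_le_right

theorem compl_himp_right {a b : B} (h : (a ⇨ b)ᶜ ∈ U) : bᶜ ∈ U := by
  refine hU.up _ h _ ?_
  rw [himp_eq, compl_sup, compl_compl]
  exact inf_le_left

end Flt

namespace TF

theorem iff' (hU : Flt U) {b : B} {p : Prop} (h : TF U b p) : b ∈ U ↔ p := by
  refine ⟨fun hb => ?_, h.1⟩
  by_contra hp
  exact hU.not_both hb (h.2 hp)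

theorem congr {b : B} {p q : Prop} (h : TF U b p) (hpq : p ↔ q) : TF U b q :=
  ⟨fun hq => h.1 (hpq.2 hq), fun hq => h.2 fun hp => hq (hpq.1 hp)⟩

theorem tv' (hU : Flt U) (p : Prop) : TF U (tv B p) p := by
  constructor
  · intro h
    rw [tv_true h]
    exact hU.top
  · intro h
    rw [tv_false h, compl_bot]
    exact hU.top

theorem bot' (hU : Flt U) : TF U (⊥ : B) False :=
  ⟨False.elim, fun _ => by rw [compl_bot]; exact hU.top⟩

theorem and (hU : Flt U) {a b : B} {p q : Prop} (h : TF U a p) (h' : TF U b q) :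
    TF U (a ⊓ b) (p ∧ q) := by
  refine ⟨fun hpq => hU.inf _ (h.1 hpq.1) _ (h'.1 hpq.2), fun hpq => ?_⟩
  rw [compl_inf]
  by_cases hp : p
  · exact hU.up _ (h'.2 fun hq => hpq ⟨hp, hq⟩) _ le_sup_right
  · exact hU.up _ (h.2 hp) _ le_sup_left

theorem imp (hU : Flt U) {a b : B} {p q : Prop} (h : TF U a p) (h' : TF U b q) :
    TF U (a ⇨ b) (p → q) := by
  refine ⟨fun hpq => ?_, fun hpq => ?_⟩
  · rw [himp_eq]
    by_cases hp : p
    · exact hU.up _ (h'.1 (hpq hp)) _ le_sup_left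
    · exact hU.up _ (h.2 hp) _ le_sup_right
  · rw [himp_eq, compl_sup, compl_compl]
    have hp : p := by
      by_contra hp
      exact hpq fun hp' => (hp hp').elim
    exact hU.inf _ (h'.2 fun hq => hpq fun _ => hq) _ (h.1 hp)

theorem iff (hU : Flt U) {a b : B} {p q : Prop} (h : TF U a p) (h' : TF U b q) :
    TF U (iffV a b) (p ↔ q) :=
  (and hU (imp hU h h') (imp hU h' h)).congr iff_def.symm

theorem ex (hU : Flt U) {ι : Type w} {I : Set ι} {g : ι → B} {p : ι → Prop}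
    (hw : Wt U I g) (h : ∀ i ∈ I, TF U (g i) (p i)) : TF U (⨆ i, g i) (∃ i ∈ I, p i) := by
  constructor
  · rintro ⟨i, hi, hp⟩
    exact hU.iSup_of i ((h i hi).1 hp)
  · intro hp
    rcases hw with hw | ⟨i, hi, hw⟩
    · exact hw
    · exact (hp ⟨i, hi, ((h i hi).iff' hU).1 hw⟩).elim

theorem all (hU : Flt U) {ι : Type w} {I : Set ι} {g : ι → B} {p : ι → Prop}
    (hw : Wt U I (fun i => (g i)ᶜ)) (h : ∀ i ∈ I, TF U (g i) (p i)) :
    TF U (⨅ i, g i) (∀ i ∈ I, p i) := by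
  constructor
  · intro hp
    exact hU.iInf_of hw fun i hi => (h i hi).1 (hp i hi)
  · intro hp
    push Not at hp
    obtain ⟨i, hi, hp⟩ := hp
    exact hU.up _ ((h i hi).2 hp) _ (compl_le_compl (iInf_le g i))

end TF

/-! ### quantifiers over tuples -/

/-- the sequence `a, b, c, d, d, ...` -/
def t4 {α : Type w} (a b c d : α) : ℕ → α
  | 0 => a
  | 1 => b
  | 2 => c
  | _ => d

theorem iSup_t1 {α : Type w} (f : α → B) : ⨆ a, f a = ⨆ w : ℕ → α, f (w 0) :=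
  le_antisymm (iSup_le fun a => le_iSup (fun w : ℕ → α => f (w 0)) (fun _ => a))
    (iSup_le fun w => le_iSup f (w 0))

theorem iInf_t1 {α : Type w} (f : α → B) : ⨅ a, f a = ⨅ w : ℕ → α, f (w 0) :=
  le_antisymm (le_iInf fun w => iInf_le f (w 0))
    (le_iInf fun a => iInf_le (fun w : ℕ → α => f (w 0)) (fun _ => a))

theorem iSup_t2 {α : Type w} (f : α → α → B) :
    ⨆ a, ⨆ b, f a b = ⨆ w : ℕ → α, f (w 0) (w 1) :=
  le_antisymm (iSup_le fun a => iSup_le fun b =>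
      le_iSup (fun w : ℕ → α => f (w 0) (w 1)) (t4 a b b b))
    (iSup_le fun w => (le_iSup (f (w 0)) (w 1)).trans (le_iSup (fun a => ⨆ b, f a b) (w 0)))

theorem iInf_t2 {α : Type w} (f : α → α → B) :
    ⨅ a, ⨅ b, f a b = ⨅ w : ℕ → α, f (w 0) (w 1) :=
  le_antisymm (le_iInf fun w => (iInf_le (fun a => ⨅ b, f a b) (w 0)).trans (iInf_le (f (w 0)) (w 1)))
    (le_iInf fun a => le_iInf fun b => iInf_le (fun w : ℕ → α => f (w 0) (w 1)) (t4 a b b b))

theorem iInf_t3 {α : Type w} (f : α → α → α → B) :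
    ⨅ a, ⨅ b, ⨅ c, f a b c = ⨅ w : ℕ → α, f (w 0) (w 1) (w 2) :=
  le_antisymm (le_iInf fun w => ((iInf_le _ (w 0)).trans (iInf_le _ (w 1))).trans (iInf_le _ (w 2)))
    (le_iInf fun a => le_iInf fun b => le_iInf fun c =>
      iInf_le (fun w : ℕ → α => f (w 0) (w 1) (w 2)) (t4 a b c c))

theorem iInf_t4 {α : Type w} (f : α → α → α → α → B) :
    ⨅ a, ⨅ b, ⨅ c, ⨅ d, f a b c d = ⨅ w : ℕ → α, f (w 0) (w 1) (w 2) (w 3) :=
  le_antisymm (le_iInf fun w => (((iInf_le _ (w 0)).trans (iInf_le _ (w 1))).trans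
      (iInf_le _ (w 2))).trans (iInf_le _ (w 3)))
    (le_iInf fun a => le_iInf fun b => le_iInf fun c => le_iInf fun d =>
      iInf_le (fun w : ℕ → α => f (w 0) (w 1) (w 2) (w 3)) (t4 a b c d))

end

/-! ### satisfaction depends on finitely many values -/

section
variable {X : Type v} (N : Str X)

theorem Ev_congr (t : Tm) {s s' : ℕ → X} (h : ∀ k ∈ t.vars, s k = s' k) : Ev N s t = Ev N s' t := by
  induction t with
  | var k => exact h k (by simp [Tm.vars])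
  | zero => rfl
  | one => rfl
  | add t u iht ihu =>
    simp only [Ev]
    rw [iht fun k hk => h k (by simp [Tm.vars, hk]), ihu fun k hk => h k (by simp [Tm.vars, hk])]
  | mul t u iht ihu =>
    simp only [Ev]
    rw [iht fun k hk => h k (by simp [Tm.vars, hk]), ihu fun k hk => h k (by simp [Tm.vars, hk])]

theorem Sat_congr (φ : Fm) {s s' : ℕ → X} (h : ∀ k ∈ φ.fv, s k = s' k) :
    Sat N s φ ↔ Sat N s' φ := by
  induction φ generalizing s s' with
  | eq t u =>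
    simp only [Sat]
    rw [Ev_congr N t fun k hk => h k (by simp [Fm.fv, hk]),
      Ev_congr N u fun k hk => h k (by simp [Fm.fv, hk])]
  | lt t u =>
    simp only [Sat]
    rw [Ev_congr N t fun k hk => h k (by simp [Fm.fv, hk]),
      Ev_congr N u fun k hk => h k (by simp [Fm.fv, hk])]
  | bot => rfl
  | imp φ ψ ihφ ihψ =>
    simp only [Sat]
    rw [ihφ fun k hk => h k (by simp [Fm.fv, hk]), ihψ fun k hk => h k (by simp [Fm.fv, hk])]
  | all k φ ih =>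
    simp only [Sat]
    refine forall_congr' fun a => ih fun j hj => ?_
    by_cases hjk : j = k
    · subst hjk
      simp
    · rw [Function.update_of_ne hjk, Function.update_of_ne hjk]
      exact h j (by simp [Fm.fv, hj, hjk])

end

/-! ### the truth lemma -/

section
variable {B : Type} [CompleteBooleanAlgebra B]

/-- the first part of the tasks: truth of formulas -/
structure Tk (N : BStr B K2) (U : Set B) (AS : Set (ℕ → K2)) (KS : Set K2) : Prop where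
  add : ∀ (t u : Tm), ∀ v ∈ AS, ∀ x ∈ KS,
    Wt U AS (fun w : ℕ → K2 => t.val N v (w 0) ⊓ u.val N v (w 1) ⊓ N.add (w 0) (w 1) x)
  mul : ∀ (t u : Tm), ∀ v ∈ AS, ∀ x ∈ KS,
    Wt U AS (fun w : ℕ → K2 => t.val N v (w 0) ⊓ u.val N v (w 1) ⊓ N.mul (w 0) (w 1) x)
  eq : ∀ (t u : Tm), ∀ v ∈ AS, Wt U AS (fun w : ℕ → K2 => t.val N v (w 0) ⊓ u.val N v (w 0))
  lt : ∀ (t u : Tm), ∀ v ∈ AS,
    Wt U AS (fun w : ℕ → K2 => t.val N v (w 0) ⊓ u.val N v (w 1) ⊓ N.lt (w 0) (w 1))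
  all : ∀ (φ : Fm) (k : ℕ), ∀ v ∈ AS, Wt U AS (fun w : ℕ → K2 => (φ.val N (update v k (w 0)))ᶜ)

/-- the Boolean-valued structure `N` becomes the structure `N'` -/
structure Mt {X : Type v} (N : BStr B K2) (N' : Str X) (g : K2 → X) (U : Set B)
    (AS : Set (ℕ → K2)) (KS : Set K2) : Prop where
  as_mem : ∀ v ∈ AS, ∀ k, v k ∈ KS
  as_ex : ∀ (n : ℕ) (s : ℕ → K2), (∀ k, s k ∈ KS) → ∃ v ∈ AS, ∀ k < n, v k = s k
  as_upd : ∀ v ∈ AS, ∀ k, ∀ a ∈ KS, update v k a ∈ AS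
  surj : ∀ x : X, ∃ a ∈ KS, g a = x
  inj : ∀ a ∈ KS, ∀ b ∈ KS, g a = g b → a = b
  zero : ∃ a ∈ KS, g a = N'.zero ∧ ∀ x, N.zero x = tv B (a = x)
  one : ∃ a ∈ KS, g a = N'.one ∧ ∀ x, N.one x = tv B (a = x)
  add : ∀ a ∈ KS, ∀ b ∈ KS, ∀ x ∈ KS, TF U (N.add a b x) (N'.add (g a) (g b) = g x)
  mul : ∀ a ∈ KS, ∀ b ∈ KS, ∀ x ∈ KS, TF U (N.mul a b x) (N'.mul (g a) (g b) = g x)
  lt : ∀ a ∈ KS, ∀ b ∈ KS, TF U (N.lt a b) (N'.lt (g a) (g b))

variable {X : Type v} {N : BStr B K2} {N' : Str X} {g : K2 → X} {U : Set B}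
  {AS : Set (ℕ → K2)} {KS : Set K2}

theorem Mt.as_ne (hM : Mt N N' g U AS KS) : ∃ v, v ∈ AS := by
  obtain ⟨a, ha, _⟩ := hM.zero
  obtain ⟨v, hv, _⟩ := hM.as_ex 0 (fun _ => a) fun _ => ha
  exact ⟨v, hv⟩

theorem Mt.as2 (hM : Mt N N' g U AS KS) {a b : K2} (ha : a ∈ KS) (hb : b ∈ KS) :
    ∃ v ∈ AS, v 0 = a ∧ v 1 = b := by
  obtain ⟨v, hv, h⟩ := hM.as_ex 2 (t4 a b b b) fun k => by
    unfold t4
    split <;> assumption
  exact ⟨v, hv, h 0 (by norm_num), h 1 (by norm_num)⟩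

theorem truth_tm (hU : Flt U) (hM : Mt N N' g U AS KS) (hT : Tk N U AS KS) (t : Tm) {v : ℕ → K2}
    (hv : v ∈ AS) : ∀ x ∈ KS, TF U (t.val N v x) (Ev N' (g ∘ v) t = g x) := by
  induction t with
  | var k =>
    intro x hx
    refine (TF.tv' hU _).congr ⟨fun h => ?_, fun h => ?_⟩
    · rw [← h]; rfl
    · exact hM.inj _ (hM.as_mem v hv k) _ hx h
  | zero =>
    intro x hx
    obtain ⟨a, ha, h1, h2⟩ := hM.zero
    show TF U (N.zero x) (N'.zero = g x)
    rw [h2, ← h1]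
    exact (TF.tv' hU _).congr ⟨fun h => by rw [h], fun h => hM.inj _ ha _ hx h⟩
  | one =>
    intro x hx
    obtain ⟨a, ha, h1, h2⟩ := hM.one
    show TF U (N.one x) (N'.one = g x)
    rw [h2, ← h1]
    exact (TF.tv' hU _).congr ⟨fun h => by rw [h], fun h => hM.inj _ ha _ hx h⟩
  | add t u iht ihu =>
    intro x hx
    show TF U (⨆ a, ⨆ b, t.val N v a ⊓ u.val N v b ⊓ N.add a b x)
      (N'.add (Ev N' (g ∘ v) t) (Ev N' (g ∘ v) u) = g x)
    rw [iSup_t2]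
    refine (TF.ex hU (hT.add t u v hv x hx) fun w hw => TF.and hU (TF.and hU
      (iht _ (hM.as_mem w hw 0)) (ihu _ (hM.as_mem w hw 1)))
      (hM.add _ (hM.as_mem w hw 0) _ (hM.as_mem w hw 1) x hx)).congr ?_
    constructor
    · rintro ⟨w, _, ⟨h1, h2⟩, h3⟩
      rw [h1, h2]
      exact h3
    · intro h
      obtain ⟨a, ha, ea⟩ := hM.surj (Ev N' (g ∘ v) t)
      obtain ⟨b, hb, eb⟩ := hM.surj (Ev N' (g ∘ v) u)
      obtain ⟨w, hw, h0, h1⟩ := hM.as2 ha hb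
      refine ⟨w, hw, ⟨?_, ?_⟩, ?_⟩
      · rw [h0, ea]
      · rw [h1, eb]
      · rw [h0, h1, ea, eb]
        exact h
  | mul t u iht ihu =>
    intro x hx
    show TF U (⨆ a, ⨆ b, t.val N v a ⊓ u.val N v b ⊓ N.mul a b x)
      (N'.mul (Ev N' (g ∘ v) t) (Ev N' (g ∘ v) u) = g x)
    rw [iSup_t2]
    refine (TF.ex hU (hT.mul t u v hv x hx) fun w hw => TF.and hU (TF.and hU
      (iht _ (hM.as_mem w hw 0)) (ihu _ (hM.as_mem w hw 1)))
      (hM.mul _ (hM.as_mem w hw 0) _ (hM.as_mem w hw 1) x hx)).congr ?_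
    constructor
    · rintro ⟨w, _, ⟨h1, h2⟩, h3⟩
      rw [h1, h2]
      exact h3
    · intro h
      obtain ⟨a, ha, ea⟩ := hM.surj (Ev N' (g ∘ v) t)
      obtain ⟨b, hb, eb⟩ := hM.surj (Ev N' (g ∘ v) u)
      obtain ⟨w, hw, h0, h1⟩ := hM.as2 ha hb
      refine ⟨w, hw, ⟨?_, ?_⟩, ?_⟩
      · rw [h0, ea]
      · rw [h1, eb]
      · rw [h0, h1, ea, eb]
        exact h

theorem truth_fm (hU : Flt U) (hM : Mt N N' g U AS KS) (hT : Tk N U AS KS) (φ : Fm) :
    ∀ v ∈ AS, TF U (φ.val N v) (Sat N' (g ∘ v) φ) := by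
  induction φ with
  | eq t u =>
    intro v hv
    show TF U (⨆ a, t.val N v a ⊓ u.val N v a) (Ev N' (g ∘ v) t = Ev N' (g ∘ v) u)
    rw [iSup_t1]
    refine (TF.ex hU (hT.eq t u v hv) fun w hw => TF.and hU
      (truth_tm hU hM hT t hv _ (hM.as_mem w hw 0)) (truth_tm hU hM hT u hv _ (hM.as_mem w hw 0))).congr ?_
    constructor
    · rintro ⟨w, _, h1, h2⟩
      rw [h1, h2]
    · intro h
      obtain ⟨a, ha, ea⟩ := hM.surj (Ev N' (g ∘ v) t)
      obtain ⟨w, hw, h0, _⟩ := hM.as2 ha ha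
      refine ⟨w, hw, ?_, ?_⟩
      · rw [h0, ea]
      · rw [h0, ea, h]
  | lt t u =>
    intro v hv
    show TF U (⨆ a, ⨆ b, t.val N v a ⊓ u.val N v b ⊓ N.lt a b)
      (N'.lt (Ev N' (g ∘ v) t) (Ev N' (g ∘ v) u))
    rw [iSup_t2]
    refine (TF.ex hU (hT.lt t u v hv) fun w hw => TF.and hU (TF.and hU
      (truth_tm hU hM hT t hv _ (hM.as_mem w hw 0)) (truth_tm hU hM hT u hv _ (hM.as_mem w hw 1)))
      (hM.lt _ (hM.as_mem w hw 0) _ (hM.as_mem w hw 1))).congr ?_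
    constructor
    · rintro ⟨w, _, ⟨h1, h2⟩, h3⟩
      rw [h1, h2]
      exact h3
    · intro h
      obtain ⟨a, ha, ea⟩ := hM.surj (Ev N' (g ∘ v) t)
      obtain ⟨b, hb, eb⟩ := hM.surj (Ev N' (g ∘ v) u)
      obtain ⟨w, hw, h0, h1⟩ := hM.as2 ha hb
      refine ⟨w, hw, ⟨?_, ?_⟩, ?_⟩
      · rw [h0, ea]
      · rw [h1, eb]
      · rw [h0, h1, ea, eb]
        exact h
  | bot =>
    intro v _
    exact TF.bot' hU
  | imp φ ψ ihφ ihψ =>
    intro v hv
    exact TF.imp hU (ihφ v hv) (ihψ v hv)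
  | all k φ ih =>
    intro v hv
    show TF U (⨅ a, φ.val N (update v k a)) (∀ a, Sat N' (update (g ∘ v) k a) φ)
    rw [iInf_t1]
    refine (TF.all hU (hT.all φ k v hv) fun w hw => ih _ (hM.as_upd v hv k _ (hM.as_mem w hw 0))).congr ?_
    constructor
    · intro h x
      obtain ⟨a, ha, rfl⟩ := hM.surj x
      obtain ⟨w, hw, h0, _⟩ := hM.as2 ha ha
      have := h w hw
      rw [h0, comp_update] at this
      exact this
    · intro h w _
      rw [comp_update]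
      exact h _

end

end Pool.Agent.Helper23.KB
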