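import Pool.Agent.Helper23.KB.Kf

set_option autoImplicit false

/-!
# A Boolean-valued structure that becomes a Kaufmann model
-/

universe u v w

namespace Pool.Agent.Helper23.KB

open Helper84.Kauf (Tm Fm basicAxioms IsRecType BStr tv iffV smallVal kaufVal K2 tv_true tv_false)
open Helper84.Kauf.BStr
open Function

section
variable {B : Type} [CompleteBooleanAlgebra B]

/-- the hypothesis and the conclusion of the induction axiom -/
def indI (N : BStr B K2) (φ : Fm) (k : ℕ) (v : ℕ → K2) : B :=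
    (⨅ x, N.zero x ⇨ φ.val N (update v k x)) ⊓
    (⨅ x, ⨅ o, ⨅ y, N.one o ⊓ N.add x o y ⊓ φ.val N (update v k x) ⇨
      φ.val N (update v k y)) ⇨
    ⨅ x, φ.val N (update v k x)

/-- recursive saturation for one type -/
def recI (N : BStr B K2) (T : Set Fm) (v : ℕ → K2) : B :=
  ⨅ _ : IsRecType T,
    ((⨅ F : Finset Fm, ⨅ _ : (F : Set Fm) ⊆ T, ⨆ a, ⨅ φ ∈ F, φ.val N (update v 0 a)) ⇨
    ⨆ a, ⨅ φ ∈ T, φ.val N (update v 0 a))

/-- the second part of the tasks -/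
structure Tk2 (N : BStr B K2) (U : Set B) (AS : Set (ℕ → K2)) (KS : Set K2)
    (TS : Set (Set Fm × (ℕ → K2))) (XS : Set (K2 → B)) : Prop extends Tk N U AS KS where
  ind : Wt U {i : Fm × ℕ × (ℕ → K2) | i.2.2 ∈ AS} (fun i => (indI N i.1 i.2.1 i.2.2)ᶜ)
  basic : ∀ φ : Fm, Wt U AS (fun w : ℕ → K2 => (φ.val N w)ᶜ)
  tadd : Wt U AS (fun w : ℕ → K2 => (⨆ x, N.add (w 0) (w 1) x)ᶜ)
  tmul : Wt U AS (fun w : ℕ → K2 => (⨆ x, N.mul (w 0) (w 1) x)ᶜ)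
  uadd : Wt U AS (fun w : ℕ → K2 =>
    (N.add (w 0) (w 1) (w 2) ⊓ N.add (w 0) (w 1) (w 3) ⇨ tv B (w 2 = w 3))ᶜ)
  umul : Wt U AS (fun w : ℕ → K2 =>
    (N.mul (w 0) (w 1) (w 2) ⊓ N.mul (w 0) (w 1) (w 3) ⇨ tv B (w 2 = w 3))ᶜ)
  small : Wt U AS (fun w : ℕ → K2 => (smallVal fun x => N.lt x (w 0))ᶜ)
  ts : ∀ i ∈ TS, i.2 ∈ AS
  rc : Wt U TS (fun i => (recI N i.1 i.2)ᶜ)
  fin : ∀ (F : Finset Fm), ∀ v ∈ AS, Wt U AS (fun w : ℕ → K2 => ⨅ φ ∈ F, φ.val N (update v 0 (w 0)))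
  typ : ∀ i ∈ TS, ∀ a ∈ KS,
    Wt U Set.univ (fun φ : Fm => (⨅ _ : φ ∈ i.1, φ.val N (update i.2 0 a))ᶜ)
  rcl : Wt U XS (fun X => (N.classVal X ⇨ N.defVal X)ᶜ)
  cls : ∀ X ∈ XS, ∀ a ∈ KS, Wt U {i : Fm × (ℕ → K2) | i.2 ∈ AS}
    (fun i => ⨅ x, iffV (X x ⊓ N.lt x a) (i.1.val N (update i.2 0 x)))
  dfn : ∀ X ∈ XS, ∀ φ : Fm, ∀ v ∈ AS,
    Wt U AS (fun w : ℕ → K2 => (iffV (X (w 0)) (φ.val N (update v 0 (w 0))))ᶜ)

variable {X : Type v} {N : BStr B K2} {N' : Str X} {g : K2 → X} {U : Set B}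
  {AS : Set (ℕ → K2)} {KS : Set K2} {TS : Set (Set Fm × (ℕ → K2))} {XS : Set (K2 → B)}

theorem Mt.sat_upd (hU : Flt U) (hM : Mt N N' g U AS KS) (hT : Tk N U AS KS) (φ : Fm) {v : ℕ → K2}
    (hv : v ∈ AS) (k : ℕ) {a : K2} (ha : a ∈ KS) :
    TF U (φ.val N (update v k a)) (Sat N' (update (g ∘ v) k (g a)) φ) := by
  have := truth_fm hU hM hT φ _ (hM.as_upd v hv k a ha)
  rwa [comp_update] at this

theorem tot_val (hU : Flt U) (hM : Mt N N' g U AS KS) {f : K2 → K2 → K2 → B} {f' : X → X → X}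
    (hf : ∀ a ∈ KS, ∀ b ∈ KS, ∀ x ∈ KS, TF U (f a b x) (f' (g a) (g b) = g x))
    (h : Wt U AS (fun w : ℕ → K2 => (⨆ x, f (w 0) (w 1) x)ᶜ)) :
    (⨅ a, ⨅ b, ⨆ x, f a b x) ∈ U := by
  rw [iInf_t2]
  refine hU.iInf_of h fun w hw => ?_
  obtain ⟨x, hx, e⟩ := hM.surj (f' (g (w 0)) (g (w 1)))
  exact hU.iSup_of x ((hf _ (hM.as_mem w hw 0) _ (hM.as_mem w hw 1) x hx).1 e.symm)

theorem uni_val (hU : Flt U) (hM : Mt N N' g U AS KS) {f : K2 → K2 → K2 → B} {f' : X → X → X}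
    (hf : ∀ a ∈ KS, ∀ b ∈ KS, ∀ x ∈ KS, TF U (f a b x) (f' (g a) (g b) = g x))
    (h : Wt U AS (fun w : ℕ → K2 => (f (w 0) (w 1) (w 2) ⊓ f (w 0) (w 1) (w 3) ⇨
      tv B (w 2 = w 3))ᶜ)) :
    (⨅ a, ⨅ b, ⨅ x, ⨅ y, f a b x ⊓ f a b y ⇨ tv B (x = y)) ∈ U := by
  rw [iInf_t4]
  refine hU.iInf_of h fun w hw => ?_
  refine (TF.imp hU (TF.and hU (hf _ (hM.as_mem w hw 0) _ (hM.as_mem w hw 1) _ (hM.as_mem w hw 2))
    (hf _ (hM.as_mem w hw 0) _ (hM.as_mem w hw 1) _ (hM.as_mem w hw 3))) (TF.tv' hU _)).1 ?_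
  rintro ⟨h1, h2⟩
  exact hM.inj _ (hM.as_mem w hw 2) _ (hM.as_mem w hw 3) (by rw [← h1, ← h2])

theorem const_val {a : K2} : (⨆ x, tv B (a = x)) = ⊤ ∧
    (⨅ x, ⨅ y, tv B (a = x) ⊓ tv B (a = y) ⇨ tv B (x = y)) = ⊤ := by
  refine ⟨?_, ?_⟩
  · rw [eq_top_iff]
    refine le_trans ?_ (le_iSup _ a)
    rw [tv_true rfl]
  · rw [eq_top_iff]
    refine le_iInf fun x => le_iInf fun y => ?_
    rw [le_himp_iff, top_inf_eq]
    by_cases h1 : a = x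
    · by_cases h2 : a = y
      · rw [tv_true (h1.symm.trans h2)]
        exact le_top
      · rw [tv_false h2, inf_bot_eq]
        exact bot_le
    · rw [tv_false h1, bot_inf_eq]
      exact bot_le

theorem strVal_mem (hU : Flt U) (hM : Mt N N' g U AS KS) (hT : Tk2 N U AS KS TS XS) :
    N.strVal ∈ U := by
  obtain ⟨a, ha, ea, h0⟩ := hM.zero
  obtain ⟨b, hb, eb, h1⟩ := hM.one
  unfold Helper84.Kauf.BStr.strVal
  simp only [h0, h1]
  rw [const_val.1, const_val.2, const_val.1, const_val.2]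
  refine hU.inf _ (hU.inf _ (hU.inf _ (hU.inf _ ?_ _ ?_) _ ?_) _ ?_) _ ?_
  · simpa using hU.top
  · exact tot_val hU hM hM.add hT.tadd
  · exact uni_val hU hM hM.add hT.uadd
  · exact tot_val hU hM hM.mul hT.tmul
  · exact uni_val hU hM hM.mul hT.umul

theorem paVal_mem (hU : Flt U) (hM : Mt N N' g U AS KS) (hT : Tk2 N U AS KS TS XS)
    (hPA : IsPA N') : N.paVal ∈ U := by
  unfold Helper84.Kauf.BStr.paVal
  refine hU.inf _ (hU.inf _ (strVal_mem hU hM hT) _ ?_) _ ?_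
  · refine hU.iInf_list basicAxioms (fun φ => ⨅ v : ℕ → K2, φ.val N v) fun φ hφ => ?_
    refine hU.iInf_of (hT.basic φ) fun v hv => ?_
    exact (truth_fm hU hM hT.toTk φ v hv).1 (hPA.1 φ hφ _)
  · have e : N.indVal = ⨅ i : Fm × ℕ × (ℕ → K2), indI N i.1 i.2.1 i.2.2 := by
      rw [iInf_prod]
      simp only [iInf_prod]
      rfl
    rw [e]
    refine Flt.iInf_of' hT.ind fun i hi h => ?_
    obtain ⟨φ, k, v⟩ := i
    have hv : v ∈ AS := hi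
    simp only at h
    have h1 := hU.compl_himp_left h
    have h2 := hU.compl_himp_right h
    have h3 := hU.left h1
    have h4 := hU.right h1
    refine hU.not_both ?_ h2
    rw [iInf_t1]
    refine hU.iInf_of (hT.all φ k v hv) fun w hw => ?_
    refine (hM.sat_upd hU hT.toTk φ hv k (hM.as_mem w hw 0)).1 ?_
    refine hPA.2 φ k (g ∘ v) ?_ (fun x hx => ?_) _
    · obtain ⟨a, ha, ea, h0⟩ := hM.zero
      have h5 := hU.iInf_at h3 a
      rw [h0, tv_true rfl, top_himp] at h5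
      rw [← ea]
      exact ((hM.sat_upd hU hT.toTk φ hv k ha).iff' hU).1 h5
    · obtain ⟨b, hb, eb, h0⟩ := hM.one
      obtain ⟨a, ha, rfl⟩ := hM.surj x
      obtain ⟨y, hy, ey⟩ := hM.surj (N'.add (g a) N'.one)
      have h5 := hU.iInf_at (hU.iInf_at (hU.iInf_at h4 a) b) y
      rw [← ey]
      refine ((hM.sat_upd hU hT.toTk φ hv k hy).iff' hU).1 (hU.mp h5 ?_)
      refine hU.inf _ (hU.inf _ ?_ _ ?_) _ ?_
      · rw [h0, tv_true rfl]; exact hU.top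
      · exact (hM.add a ha b hb y hy).1 (by rw [eb, ey])
      · exact (hM.sat_upd hU hT.toTk φ hv k ha).1 hx

theorem recVal_mem (hU : Flt U) (hM : Mt N N' g U AS KS) (hT : Tk2 N U AS KS TS XS)
    (hR : IsRecSat N') : N.recSatVal ∈ U := by
  have e : N.recSatVal = ⨅ i : Set Fm × (ℕ → K2), recI N i.1 i.2 := by
    rw [iInf_prod]
    unfold Helper84.Kauf.BStr.recSatVal recI
    refine iInf_congr fun T => ?_
    rw [iInf_comm]
  rw [e]
  refine Flt.iInf_of' hT.rc fun i hi h => ?_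
  have hv := hT.ts i hi
  have htyp := hT.typ i hi
  obtain ⟨T, v⟩ := i
  simp only at h hv htyp
  by_cases hT' : IsRecType T
  · unfold recI at h
    rw [iInf_pos hT'] at h
    have h1 := hU.compl_himp_left h
    have h2 := hU.compl_himp_right h
    obtain ⟨x, hx⟩ := hR T hT' (g ∘ v) (fun F hF => by
      have h3 := hU.iInf_at (hU.iInf_at h1 F) hF
      rw [iSup_t1] at h3
      obtain ⟨w, hw, h4⟩ := hU.iSup_ex (hT.fin F v hv) h3
      refine ⟨g (w 0), fun φ hφ => ?_⟩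
      have h5 := hU.iInf_at (hU.iInf_at h4 φ) hφ
      exact ((hM.sat_upd hU hT.toTk φ hv 0 (hM.as_mem w hw 0)).iff' hU).1 h5)
    obtain ⟨a, ha, rfl⟩ := hM.surj x
    refine hU.not_both (hU.iSup_of a ?_) h2
    refine hU.iInf_of (htyp a ha) fun φ _ => ?_
    by_cases hφ : φ ∈ T
    · rw [iInf_pos hφ]
      exact (hM.sat_upd hU hT.toTk φ hv 0 ha).1 (hx φ hφ)
    · rw [iInf_neg hφ]
      exact hU.top
  · unfold recI at h
    rw [iInf_neg hT', compl_top] at h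
    exact hU.bot h

/-- the set of the elements of `N'` in the subset `Y` -/
def ext (g : K2 → X) (U : Set B) (KS : Set K2) (Y : K2 → B) : Set X :=
  {x | ∃ b ∈ KS, g b = x ∧ Y b ∈ U}

theorem rclVal_mem (hU : Flt U) (hM : Mt N N' g U AS KS) (hT : Tk2 N U AS KS TS XS)
    (hdc : ∀ Y ∈ XS, ∀ a ∈ KS, Y a ∈ U ∨ (Y a)ᶜ ∈ U)
    (hcl : ∀ Y ∈ XS, (∀ a, IsDef N' {x | x ∈ ext g U KS Y ∧ N'.lt x a}) →
      IsDef N' (ext g U KS Y)) : N.rclVal ∈ U := by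
  have hY : ∀ Y ∈ XS, ∀ a ∈ KS, TF U (Y a) (g a ∈ ext g U KS Y) := by
    intro Y hY a ha
    constructor
    · rintro ⟨b, hb, e, h⟩
      rwa [hM.inj _ hb _ ha e] at h
    · intro h
      exact (hdc Y hY a ha).resolve_left fun h' => h ⟨a, ha, rfl, h'⟩
  unfold Helper84.Kauf.BStr.rclVal
  refine Flt.iInf_of' hT.rcl fun Y hYX h => ?_
  have h1 := hU.compl_himp_left h
  have h2 := hU.compl_himp_right h
  obtain ⟨φ, s, hs⟩ := hcl Y hYX (fun x => by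
    obtain ⟨a, ha, rfl⟩ := hM.surj x
    have h3 := hU.iInf_at h1 a
    have h3' : (⨆ i : Fm × (ℕ → K2), ⨅ x, iffV (Y x ⊓ N.lt x a)
        (i.1.val N (update i.2 0 x))) ∈ U := by
      rw [iSup_prod]
      exact h3
    obtain ⟨⟨φ, v⟩, hi, h4⟩ := hU.iSup_ex (hT.cls Y hYX a ha) h3'
    have hv : v ∈ AS := hi
    refine ⟨φ, g ∘ v, fun x => ?_⟩
    obtain ⟨b, hb, rfl⟩ := hM.surj x
    have h5 := hU.iInf_at h4 b
    exact ((TF.iff hU (TF.and hU (hY Y hYX b hb) (hM.lt b hb a ha))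
      (hM.sat_upd hU hT.toTk φ hv 0 hb)).iff' hU).1 h5)
  choose s' hs1 hs2 using fun k => hM.surj (s k)
  obtain ⟨v, hv, hvs⟩ := hM.as_ex (φ.fv.sup id + 1) s' hs1
  refine hU.not_both ?_ h2
  unfold Helper84.Kauf.BStr.defVal
  refine hU.iSup_of φ (hU.iSup_of v ?_)
  rw [iInf_t1]
  refine hU.iInf_of (hT.dfn Y hYX φ v hv) fun w hw => ?_
  have hw0 := hM.as_mem w hw 0
  refine (TF.iff hU (hY Y hYX _ hw0) (hM.sat_upd hU hT.toTk φ hv 0 hw0)).1 ?_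
  rw [hs]
  refine Sat_congr N' φ fun k hk => ?_
  by_cases hk0 : k = 0
  · subst hk0
    simp
  · rw [update_of_ne hk0, update_of_ne hk0]
    show s k = g (v k)
    rw [hvs k (Nat.lt_succ_of_le (Finset.le_sup (f := id) hk)), hs2]

/-- a structure that becomes a Kaufmann model is a Kaufmann model with positive truth value -/
theorem kaufVal_mem (hU : Flt U) (hM : Mt N N' g U AS KS) (hT : Tk2 N U AS KS TS XS)
    (hPA : IsPA N') (hR : IsRecSat N')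
    (hsm : ∀ a ∈ KS, smallVal (fun x => N.lt x a) ∈ U)
    (hdc : ∀ Y ∈ XS, ∀ a ∈ KS, Y a ∈ U ∨ (Y a)ᶜ ∈ U)
    (hcl : ∀ Y ∈ XS, (∀ a, IsDef N' {x | x ∈ ext g U KS Y ∧ N'.lt x a}) →
      IsDef N' (ext g U KS Y)) : kaufVal N ∈ U := by
  unfold Helper84.Kauf.kaufVal
  refine hU.inf _ (hU.inf _ (hU.inf _ (paVal_mem hU hM hT hPA) _ ?_) _ (recVal_mem hU hM hT hR)) _
    (rclVal_mem hU hM hT hdc hcl)
  rw [iInf_t1 (fun a => smallVal fun x => N.lt x a)]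
  exact hU.iInf_of hT.small fun w hw => hsm _ (hM.as_mem w hw 0)

end

end Pool.Agent.Helper23.KB
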