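import Pool.Agent.Helper23.KB.Ks

set_option autoImplicit false
set_option linter.unreachableTactic false
set_option linter.unusedTactic false

/-!
# There is no Kaufmann model in the generic model
-/

universe u v w

namespace Pool.Agent.Helper23.KB

open CK hiding K1 K2
open WT (ZF ZM D1 F1 DF IsFun App IsOmega IsInductive IsFn opair prod pow exists_sep
  app_iff isFun_iff opair_inj opair_mem_prod mem_prod mem_pow)
open Helper84.Kauf (Tm Fm basicAxioms IsRecType BStr BTree tv smallVal kaufVal K1 K2 tv_true tv_false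
  IsDistributive NoKaufmann)
open Function

/-! ### transport of sets along a relation -/

section
variable {M : ZFSet.{0}} [TM M]

theorem trans1 (f Y A : Mo M) : ∃ Y' : Mo M, ∀ x, ZM.E x Y' ↔
    ZM.E x A ∧ ∃ a, ZM.E (opair x a) f ∧ ZM.E a Y := by
  obtain ⟨Y', h⟩ := exists_sep (P := fun x : Mo M => ∃ a, ZM.E (opair x a) f ∧ ZM.E a Y)
    (by open WT in (repeat' first
      | with_reducible apply DF.opair
      | with_reducible assumption
      | with_reducible exact DF.var _ | with_reducible exact DF.const _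
      | with_reducible exact Dfn.const _ | with_reducible apply Dfn.mem
      | with_reducible apply Dfn.eq | with_reducible apply Dfn.and
      | with_reducible apply Dfn.ex)) A
  exact ⟨Y', h⟩

theorem trans2 (f g l V W : Mo M) : ∃ l' : Mo M, ∀ a b, ZM.E a V → ZM.E b W →
    (ZM.E (opair a b) l' ↔ ∃ x y, ZM.E (opair x a) f ∧ ZM.E (opair y b) g ∧ ZM.E (opair x y) l) := by
  obtain ⟨l', h⟩ := exists_sep (P := fun p : Mo M => ∃ a b x y, p = opair a b ∧
    ZM.E (opair x a) f ∧ ZM.E (opair y b) g ∧ ZM.E (opair x y) l)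
    (by open WT in (repeat' first
      | with_reducible apply DF.opair
      | with_reducible assumption
      | with_reducible exact DF.var _ | with_reducible exact DF.const _
      | with_reducible exact Dfn.const _ | with_reducible apply Dfn.mem
      | with_reducible apply Dfn.eq | with_reducible apply Dfn.and
      | with_reducible apply Dfn.ex)) (prod V W)
  refine ⟨l', fun a b ha hb => ?_⟩
  rw [h, opair_mem_prod]
  constructor
  · rintro ⟨_, a', b', x, y, e, h1⟩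
    obtain ⟨rfl, rfl⟩ := opair_inj.1 e
    exact ⟨x, y, h1⟩
  · rintro ⟨x, y, h1⟩
    exact ⟨⟨ha, hb⟩, a, b, x, y, rfl, h1⟩

theorem trans3 (f α W : Mo M) : ∃ α' : Mo M, ∀ a b c, ZM.E a W → ZM.E b W → ZM.E c W →
    (ZM.E (opair (opair a b) c) α' ↔ ∃ x y z, ZM.E (opair x a) f ∧ ZM.E (opair y b) f ∧
      ZM.E (opair z c) f ∧ ZM.E (opair (opair x y) z) α) := by
  obtain ⟨l', h⟩ := exists_sep (P := fun p : Mo M => ∃ a b c x y z, p = opair (opair a b) c ∧
    ZM.E (opair x a) f ∧ ZM.E (opair y b) f ∧ ZM.E (opair z c) f ∧ ZM.E (opair (opair x y) z) α)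
    (by open WT in (repeat' first
      | with_reducible apply DF.opair
      | with_reducible assumption
      | with_reducible exact DF.var _ | with_reducible exact DF.const _
      | with_reducible exact Dfn.const _ | with_reducible apply Dfn.mem
      | with_reducible apply Dfn.eq | with_reducible apply Dfn.and
      | with_reducible apply Dfn.ex)) (prod (prod W W) W)
  refine ⟨l', fun a b c ha hb hc => ?_⟩
  rw [h, opair_mem_prod, opair_mem_prod]
  constructor
  · rintro ⟨_, a', b', c', x, y, z, e, h1⟩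
    obtain ⟨e', rfl⟩ := opair_inj.1 e
    obtain ⟨rfl, rfl⟩ := opair_inj.1 e'
    exact ⟨x, y, z, h1⟩
  · rintro ⟨x, y, z, h1⟩
    exact ⟨⟨⟨ha, hb⟩, hc⟩, a, b, c, x, y, z, rfl, h1⟩

end

/-! ### the main step -/

section
variable {P A : Type} [Preorder P] [LinearOrder A] [WellFoundedLT A] [Nonempty A]
variable {T : BTree (RO P) A} {S : Set (Obj P A)} {U : Set (RO P)}

theorem GK.no_kaufmann [Nonempty P] (h : GK T S U) (hn2 : (inj (n2 P) : Obj P A) ∈ S)
    (hK : NoKaufmann (RO P)) (A' : Mo h.gen.M) (N' : Str {x : ZFSet.{0} // x ∈ A'.1}) :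
    ¬ IsKaufmann h.gen.M (h.gen.el (n2 P) hn2) A' N' := by
  classical
  rintro ⟨⟨⟨α₀, hα₀, hα⟩, ⟨μ₀, hμ₀, hμ⟩, ⟨l₀, hl₀, hl⟩⟩, hPA, ⟨f, hf1, hf2, hf3⟩, hsm, hR, hcl⟩
  set W : Mo h.gen.M := h.gen.el (n2 P) hn2 with hW
  have hU := h.flt
  -- the bijection
  have hf1' : IsFn f A' W := isFun_iff.1 hf1
  have hfi : ∀ x x' y : Mo h.gen.M, ZM.E (opair x y) f → ZM.E (opair x' y) f → x = x' := by
    intro x x' y h1 h2
    exact hf2 x x' y (app_iff.2 h1) (app_iff.2 h2)
  have hfu : ∀ x y y' : Mo h.gen.M, ZM.E (opair x y) f → ZM.E (opair x y') f → y = y' := by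
    intro x y y' h1 h2
    have h3 := (hf1'.mem_dom h1).1
    rw [hf1'.mem_iff h3] at h1 h2
    rw [h1, h2]
  have hfs : ∀ y, ZM.E y W → ∃ x, ZM.E x A' ∧ ZM.E (opair x y) f := by
    intro y hy
    obtain ⟨x, hx⟩ := hf3 y hy
    have hx := app_iff.1 hx
    exact ⟨x, (hf1'.mem_dom hx).1, hx⟩
  let KS : Set K2 := {a | (inj (wn a) : Obj P A) ∈ S}
  have hwW : ∀ a (ha : a ∈ KS), ZM.E (h.gen.el (wn a) ha) W := fun a ha =>
    (mem_val_on h.gen).2 ⟨a, ha, rfl⟩
  let g : K2 → {x : ZFSet.{0} // x ∈ A'.1} := fun a =>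
    if ha : a ∈ KS then ⟨(hfs _ (hwW a ha)).choose.1, (hfs _ (hwW a ha)).choose_spec.1⟩ else N'.zero
  let m : {x : ZFSet.{0} // x ∈ A'.1} → Mo h.gen.M := fun x => ⟨x.1, CK.mem_M x.2⟩
  have hmA : ∀ x, ZM.E (m x) A' := fun x => x.2
  have hmi : ∀ x y, m x = m y → x = y := fun x y e =>
    Subtype.ext (show x.1 = y.1 from congrArg (fun t : Mo h.gen.M => t.1) e)
  have hg : ∀ a (ha : a ∈ KS), ZM.E (opair (m (g a)) (h.gen.el (wn a) ha)) f := by
    intro a ha
    have e : g a = ⟨(hfs _ (hwW a ha)).choose.1, (hfs _ (hwW a ha)).choose_spec.1⟩ := dif_pos ha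
    have e' : m (g a) = (hfs _ (hwW a ha)).choose := Subtype.ext (by rw [e])
    rw [e']
    exact (hfs _ (hwW a ha)).choose_spec.2
  have hg' : ∀ a (ha : a ∈ KS) (x : Mo h.gen.M), ZM.E (opair x (h.gen.el (wn a) ha)) f →
      x = m (g a) := fun a ha x hx => hfi _ _ _ hx (hg a ha)
  have hsurj : ∀ x, ∃ a ∈ KS, g a = x := by
    intro x
    obtain ⟨y, hy, _⟩ := hf1'.2 (m x) (hmA x)
    have hyW := (hf1'.mem_dom hy).2
    obtain ⟨a, ha, e⟩ := (mem_val_on h.gen).1 hyW
    have e' : y = h.gen.el (wn a) ha := Subtype.ext e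
    rw [e'] at hy
    exact ⟨a, ha, hmi _ _ (hg' a ha _ hy).symm⟩
  have hinj : ∀ a ∈ KS, ∀ b ∈ KS, g a = g b → a = b := by
    intro a ha b hb e
    have h1 := hg a ha
    rw [e] at h1
    have h2 := hfu _ _ _ h1 (hg b hb)
    exact val_wn_inj h.gen ha hb (congrArg Subtype.val h2)
  -- the transported structure
  obtain ⟨α', hα'⟩ := trans3 f ⟨α₀, hα₀⟩ W
  obtain ⟨μ', hμ'⟩ := trans3 f ⟨μ₀, hμ₀⟩ W
  obtain ⟨l', hl'⟩ := trans2 f f ⟨l₀, hl₀⟩ W W
  have h3 : ∀ (γ γ' : Mo h.gen.M) (F : {x : ZFSet.{0} // x ∈ A'.1} → {x : ZFSet.{0} // x ∈ A'.1} →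
      {x : ZFSet.{0} // x ∈ A'.1}),
      (∀ x y z, ZFSet.pair (ZFSet.pair x.1 y.1) z.1 ∈ γ.1 ↔ F x y = z) →
      (∀ a b c, ZM.E a W → ZM.E b W → ZM.E c W →
        (ZM.E (opair (opair a b) c) γ' ↔ ∃ x y z, ZM.E (opair x a) f ∧ ZM.E (opair y b) f ∧
          ZM.E (opair z c) f ∧ ZM.E (opair (opair x y) z) γ)) →
      ∀ a ∈ KS, ∀ b ∈ KS, ∀ x ∈ KS, TF U (Nm.mem (Nm.opair (Nm.opair (wn a) (wn b)) (wn x))
        (h.gen.rep γ')) (F (g a) (g b) = g x) := by
    intro γ γ' F h1 h2 a ha b hb x hx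
    have h4 := trip_iff (hG := h.gen) ha hb hx (h.gen.rep_mem γ')
    have e : h.gen.el (h.gen.rep γ') (h.gen.rep_mem γ') = γ' := Subtype.ext (h.gen.val_rep γ')
    rw [e, h2 _ _ _ (hwW a ha) (hwW b hb) (hwW x hx)] at h4
    have h5 : Nm.mem (Nm.opair (Nm.opair (wn a) (wn b)) (wn x)) (h.gen.rep γ') ∈ U ↔
        F (g a) (g b) = g x := by
      rw [← h4, ← h1]
      constructor
      · rintro ⟨x', y', z', h6, h7, h8, h9⟩
        rw [hg' a ha _ h6, hg' b hb _ h7, hg' x hx _ h8, E_iff, opair_val, opair_val] at h9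
        exact h9
      · intro h9
        refine ⟨m (g a), m (g b), m (g x), hg a ha, hg b hb, hg x hx, ?_⟩
        rw [E_iff, opair_val, opair_val]
        exact h9
    refine ⟨fun hp => h5.2 hp, fun hp => ?_⟩
    exact (dec_trip (hG := h.gen) ha hb hx (h.gen.rep_mem γ')).resolve_left fun h6 => hp (h5.1 h6)
  have hadd := h3 ⟨α₀, hα₀⟩ α' N'.add hα hα'
  have hmul := h3 ⟨μ₀, hμ₀⟩ μ' N'.mul hμ hμ'
  have hlt : ∀ a ∈ KS, ∀ b ∈ KS, TF U (Nm.mem (Nm.opair (wn a) (wn b)) (h.gen.rep l'))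
      (N'.lt (g a) (g b)) := by
    intro a ha b hb
    have h4 := pair_iff (hG := h.gen) ha hb (h.gen.rep_mem l')
    have e : h.gen.el (h.gen.rep l') (h.gen.rep_mem l') = l' := Subtype.ext (h.gen.val_rep l')
    rw [e, hl' _ _ (hwW a ha) (hwW b hb)] at h4
    have h5 : Nm.mem (Nm.opair (wn a) (wn b)) (h.gen.rep l') ∈ U ↔ N'.lt (g a) (g b) := by
      rw [← h4, ← hl]
      constructor
      · rintro ⟨x', y', h6, h7, h9⟩
        rw [hg' a ha _ h6, hg' b hb _ h7, E_iff, opair_val] at h9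
        exact h9
      · intro h9
        refine ⟨m (g a), m (g b), hg a ha, hg b hb, ?_⟩
        rw [E_iff, opair_val]
        exact h9
    refine ⟨fun hp => h5.2 hp, fun hp => ?_⟩
    exact (dec_pair (hG := h.gen) ha hb (h.gen.rep_mem l')).resolve_left fun h6 => hp (h5.1 h6)
  obtain ⟨z, hz, ez⟩ := hsurj N'.zero
  obtain ⟨o, ho, eo⟩ := hsurj N'.one
  obtain ⟨oz, hoz, e⟩ := h.ex_v 2 (t4 z o o o) (fun k => by unfold t4; split <;> assumption)
  have e0 : oz.v 0 = z := e 0 (by norm_num)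
  have e1 : oz.v 1 = o := e 1 (by norm_num)
  have hM : Mt (bsn (oz.v 0) (oz.v 1) (h.gen.rep α') (h.gen.rep μ') (h.gen.rep l')) N' g U
      (Obj.v '' S) KS :=
    { as_mem := by
        rintro _ ⟨o, ho, rfl⟩ k
        exact h.wn_v ho k
      as_ex := h.as_ex'
      as_upd := h.as_upd'
      surj := hsurj
      inj := hinj
      zero := ⟨z, hz, ez, fun x => by rw [e0]; rfl⟩
      one := ⟨o, ho, eo, fun x => by rw [e1]; rfl⟩
      add := hadd
      mul := hmul
      lt := hlt }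
  have hT := h.tk2 (h.gen.rep_mem α') (h.gen.rep_mem μ') (h.gen.rep_mem l') hoz
  have hfin : kaufVal (bsn (oz.v 0) (oz.v 1) (h.gen.rep α') (h.gen.rep μ') (h.gen.rep l')) ∈ U := by
    refine kaufVal_mem hU hM hT hPA hR ?_ ?_ ?_
    · intro a ha
      obtain ⟨L, hL, d, hd, hLd⟩ := hsm (g a)
      obtain ⟨j, hj1, hj2⟩ := CardLe.inj (M := h.gen.M) hLd
      obtain ⟨γ, hγ, eγ⟩ := (mem_val_on h.gen).1 hd
      have eγ' : d = h.gen.el (wn γ) hγ := Subtype.ext eγ
      obtain ⟨F, hF⟩ : ∃ F : Mo h.gen.M, ∀ a b, ZM.E a W → ZM.E b W →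
          (ZM.E (opair a b) F ↔ ∃ x, ZM.E (opair x a) f ∧ ZM.E x L ∧ ZM.E (opair x b) j) := by
        obtain ⟨l', h⟩ := exists_sep (P := fun p : Mo h.gen.M => ∃ a b x, p = opair a b ∧
          ZM.E (opair x a) f ∧ ZM.E x L ∧ ZM.E (opair x b) j)
          (by open WT in (repeat' first
            | with_reducible apply DF.opair
            | with_reducible assumption
            | with_reducible exact DF.var _ | with_reducible exact DF.const _
            | with_reducible exact Dfn.const _ | with_reducible apply Dfn.mem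
            | with_reducible apply Dfn.eq | with_reducible apply Dfn.and
            | with_reducible apply Dfn.ex)) (prod W W)
        refine ⟨l', fun a b ha hb => ?_⟩
        rw [h, opair_mem_prod]
        constructor
        · rintro ⟨_, a', b', x, e, h1⟩
          obtain ⟨rfl, rfl⟩ := opair_inj.1 e
          exact ⟨x, h1⟩
        · rintro ⟨x, h1⟩
          exact ⟨⟨ha, hb⟩, a, b, x, rfl, h1⟩
      have eF : h.gen.el (h.gen.rep F) (h.gen.rep_mem F) = F := Subtype.ext (h.gen.val_rep F)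
      refine h.small' (h.gen.rep_mem α') (h.gen.rep_mem μ') (h.gen.rep_mem l') hoz rfl
        (f := h.gen.rep F) (h.gen.rep_mem F) ha hγ ?_ ?_ ?_
      · intro x hx hxa
        have h4 : N'.lt (g x) (g a) := ((hlt x hx a ha).iff' hU).1 hxa
        have h5 : ZM.E (m (g x)) L := (hL _).2 ⟨(g x).2, h4⟩
        obtain ⟨n, hn, hn'⟩ := hj1 _ h5
        rw [eγ'] at hn
        obtain ⟨y, hy, hyS, ey⟩ := (mem_val_wn h.gen).1 hn
        have ey' : n = h.gen.el (wn y) hyS := Subtype.ext ey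
        refine ⟨y, hyS, hy, ?_⟩
        rw [← pair_iff (hG := h.gen) hx hyS (h.gen.rep_mem F), eF, hF _ _ (hwW x hx) (hwW y hyS)]
        refine ⟨_, hg x hx, h5, ?_⟩
        rw [← ey']
        exact hn'
      · intro x hx
        by_cases h4 : N'.lt (g x) (g a)
        · exact Or.inl ((hlt x hx a ha).1 h4)
        · exact Or.inr ((hlt x hx a ha).2 h4)
      · intro x x' y hx hx' hy h1 h2
        rw [← pair_iff (hG := h.gen) hx hy (h.gen.rep_mem F), eF, hF _ _ (hwW x hx) (hwW y hy)] at h1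
        rw [← pair_iff (hG := h.gen) hx' hy (h.gen.rep_mem F), eF, hF _ _ (hwW x' hx') (hwW y hy)] at h2
        obtain ⟨t, ht1, ht2, ht3⟩ := h1
        obtain ⟨t', ht1', ht2', ht3'⟩ := h2
        have e2 := hj2 t ht2 t' ht2' _ ht3 ht3'
        subst e2
        exact hinj x hx x' hx' (hmi _ _ ((hg' x hx _ ht1).symm.trans (hg' x' hx' _ ht1')))
    · rintro _ ⟨o, ho, rfl⟩ a ha
      have hs : (inj (sn o.Y) : Obj P A) ∈ S := h.op (3, 0) [o] (by simpa [Ls] using ho)
      have := h.gen.dec_mem (x := wn a) (y := sn o.Y) ha hs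
      rwa [mem_sn] at this
    · rintro _ ⟨o, ho, rfl⟩ hY
      have hs : (inj (sn o.Y) : Obj P A) ∈ S := h.op (3, 0) [o] (by simpa [Ls] using ho)
      obtain ⟨Y, hY'⟩ := trans1 f (h.gen.el (sn o.Y) hs) A'
      have hYe : ext g U KS o.Y = {x | x.1 ∈ Y.1} := by
        ext x
        obtain ⟨a, ha, rfl⟩ := hsurj x
        have h4 := hY' (m (g a))
        show _ ↔ ZM.E (m (g a)) Y
        rw [h4]
        constructor
        · rintro ⟨b, hb, e, hbU⟩
          refine ⟨hmA _, h.gen.el (wn a) ha, hg a ha, ?_⟩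
          obtain rfl := hinj _ hb _ ha e
          exact (mem_val_sn h.gen).2 ⟨b, hb, hbU, rfl⟩
        · rintro ⟨_, y, hy, hy'⟩
          obtain ⟨b, hb, hbU, e⟩ := (mem_val_sn h.gen).1 hy'
          have e' : y = h.gen.el (wn b) hb := Subtype.ext e
          rw [e'] at hy
          exact ⟨b, hb, (hmi _ _ (hg' b hb _ hy)).symm, hbU⟩
      rw [hYe]
      refine hcl Y.1 Y.2 fun a => ?_
      have := hY a
      rw [hYe] at this
      exact this
  rw [hK] at hfin
  exact hU.bot hfin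

end

end Pool.Agent.Helper23.KB
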