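import Pool.Agent.Helper23.KB.Obj

set_option autoImplicit false

/-!
# The generic model knows the witnesses for Kaufmann models
-/

universe u v w

namespace Pool.Agent.Helper23.KB

open CK hiding K1 K2
open Nm
open Helper84.Kauf (Tm Fm basicAxioms IsRecType BStr BTree tv iffV smallVal kaufVal K1 K2 tv_true tv_false
  IsDistributive)
open Function

theorem Wt.mono {B : Type} [CompleteBooleanAlgebra B] {U : Set B} {ι : Type w} {I J : Set ι}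
    {g : ι → B} (h : Wt U I g) (hIJ : I ⊆ J) : Wt U J g := by
  rcases h with h | ⟨i, hi, h⟩
  · exact Or.inl h
  · exact Or.inr ⟨i, hIJ hi, h⟩

section
variable {P A : Type} [Preorder P] [LinearOrder A] [WellFoundedLT A] [Nonempty A]
variable {T : BTree (RO P) A} {S : Set (Obj P A)} {U : Set (RO P)}

omit [LinearOrder A] [WellFoundedLT A] [Nonempty A] in
theorem ls6 {a b c d e f : Obj P A} (ha : a ∈ S) (hb : b ∈ S) (hc : c ∈ S) (hd : d ∈ S) (he : e ∈ S)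
    (hf : f ∈ S) : Ls S [a, b, c, d, e, f] := by
  intro x hx
  simp only [List.mem_cons, List.not_mem_nil, or_false] at hx
  rcases hx with rfl | rfl | rfl | rfl | rfl | rfl <;> assumption

theorem GK.tk2 [Nonempty P] (h : GK T S U) {α μ l : Nm P} (hα : (inj α : Obj P A) ∈ S)
    (hμ : (inj μ : Obj P A) ∈ S) (hl : (inj l : Obj P A) ∈ S) {oz : Obj P A} (hz : oz ∈ S) :
    Tk2 (bsn (oz.v 0) (oz.v 1) α μ l) U (Obj.v '' S) {a | (inj (wn a) : Obj P A) ∈ S}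
      ((fun o => (o.T, o.v)) '' S) (Obj.Y '' S) where
  add t u v hv x hx := by
    obtain ⟨o, ho, rfl⟩ := hv
    obtain ⟨ox, hox, e⟩ := h.ex_v 1 (fun _ => x) (fun _ => hx)
    have e := e 0 Nat.one_pos
    rw [← e]
    exact h.wtv _ (h.ff (0, t, u, .bot, 0, ∅) _ (ls6 hα hμ hl hz ho hox)) (fun _ => rfl)
  mul t u v hv x hx := by
    obtain ⟨o, ho, rfl⟩ := hv
    obtain ⟨ox, hox, e⟩ := h.ex_v 1 (fun _ => x) (fun _ => hx)
    have e := e 0 Nat.one_pos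
    rw [← e]
    exact h.wtv _ (h.ff (1, t, u, .bot, 0, ∅) _ (ls6 hα hμ hl hz ho hox)) (fun _ => rfl)
  eq t u v hv := by
    obtain ⟨o, ho, rfl⟩ := hv
    exact h.wtv _ (h.ff (2, t, u, .bot, 0, ∅) _ (ls6 hα hμ hl hz ho ho)) (fun _ => rfl)
  lt t u v hv := by
    obtain ⟨o, ho, rfl⟩ := hv
    exact h.wtv _ (h.ff (3, t, u, .bot, 0, ∅) _ (ls6 hα hμ hl hz ho ho)) (fun _ => rfl)
  all φ k v hv := by
    obtain ⟨o, ho, rfl⟩ := hv
    exact h.wtv _ (h.ff (4, .zero, .zero, φ, k, ∅) _ (ls6 hα hμ hl hz ho ho)) (fun _ => rfl)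
  ind := by
    refine (h.wt (fun o => (o.φ, o.k, o.v)) (fun i => { (inj Nm.emp : Obj P A) with
      φ := i.1, k := i.2.1, v := i.2.2 }) (fun _ => rfl) _
      (h.ff (5, .zero, .zero, .bot, 0, ∅) _ (ls6 hα hμ hl hz hz hz)) (fun _ => rfl)).mono ?_
    rintro _ ⟨o, ho, rfl⟩
    exact ⟨o, ho, rfl⟩
  basic φ := h.wtv _ (h.ff (6, .zero, .zero, φ, 0, ∅) _ (ls6 hα hμ hl hz hz hz)) (fun _ => rfl)
  tadd := h.wtv _ (h.ff (7, .zero, .zero, .bot, 0, ∅) _ (ls6 hα hμ hl hz hz hz)) (fun _ => rfl)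
  tmul := h.wtv _ (h.ff (8, .zero, .zero, .bot, 0, ∅) _ (ls6 hα hμ hl hz hz hz)) (fun _ => rfl)
  uadd := h.wtv _ (h.ff (9, .zero, .zero, .bot, 0, ∅) _ (ls6 hα hμ hl hz hz hz)) (fun _ => rfl)
  umul := h.wtv _ (h.ff (10, .zero, .zero, .bot, 0, ∅) _ (ls6 hα hμ hl hz hz hz)) (fun _ => rfl)
  small := h.wtv _ (h.ff (11, .zero, .zero, .bot, 0, ∅) _ (ls6 hα hμ hl hz hz hz)) (fun _ => rfl)
  ts := by
    rintro _ ⟨o, ho, rfl⟩
    exact ⟨o, ho, rfl⟩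
  rc := h.wt (fun o => (o.T, o.v)) (fun i => { (inj Nm.emp : Obj P A) with
      T := i.1, v := i.2 }) (fun _ => rfl) _
      (h.ff (12, .zero, .zero, .bot, 0, ∅) _ (ls6 hα hμ hl hz hz hz)) (fun _ => rfl)
  fin F v hv := by
    obtain ⟨o, ho, rfl⟩ := hv
    exact h.wtv _ (h.ff (13, .zero, .zero, .bot, 0, F) _ (ls6 hα hμ hl hz ho ho)) (fun _ => rfl)
  typ i hi a ha := by
    obtain ⟨o, ho, rfl⟩ := hi
    obtain ⟨ox, hox, e⟩ := h.ex_v 1 (fun _ => a) (fun _ => ha)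
    have e := e 0 Nat.one_pos
    rw [← e]
    exact (h.wt (fun o => o.φ) (fun i => { (inj Nm.emp : Obj P A) with φ := i }) (fun _ => rfl) _
      (h.ff (14, .zero, .zero, .bot, 0, ∅) _ (ls6 hα hμ hl hz ho hox)) (fun _ => rfl)).mono
      (Set.subset_univ _)
  rcl := h.wt (fun o => o.Y) (fun i => { (inj Nm.emp : Obj P A) with Y := i }) (fun _ => rfl) _
      (h.ff (15, .zero, .zero, .bot, 0, ∅) _ (ls6 hα hμ hl hz hz hz)) (fun _ => rfl)
  cls Y hY a ha := by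
    obtain ⟨o, ho, rfl⟩ := hY
    obtain ⟨ox, hox, e⟩ := h.ex_v 1 (fun _ => a) (fun _ => ha)
    have e := e 0 Nat.one_pos
    rw [← e]
    refine (h.wt (fun o => (o.φ, o.v)) (fun i => { (inj Nm.emp : Obj P A) with
      φ := i.1, v := i.2 }) (fun _ => rfl) _
      (h.ff (16, .zero, .zero, .bot, 0, ∅) _ (ls6 hα hμ hl hz ho hox)) (fun _ => rfl)).mono ?_
    rintro _ ⟨o, ho, rfl⟩
    exact ⟨o, ho, rfl⟩
  dfn Y hY φ v hv := by
    obtain ⟨o, ho, rfl⟩ := hY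
    obtain ⟨o', ho', rfl⟩ := hv
    exact h.wtv _ (h.ff (17, .zero, .zero, φ, 0, ∅) _ (ls6 hα hμ hl hz ho ho')) (fun _ => rfl)

theorem GK.as_ex' [Nonempty P] (h : GK T S U) (n : ℕ) (s : ℕ → K2)
    (hs : ∀ k, s k ∈ {a | (inj (wn a) : Obj P A) ∈ S}) :
    ∃ v ∈ Obj.v '' S, ∀ k < n, v k = s k := by
  obtain ⟨o, ho, e⟩ := h.ex_v n s hs
  exact ⟨_, ⟨o, ho, rfl⟩, e⟩

theorem GK.as_upd' [Nonempty P] (h : GK T S U) : ∀ v ∈ Obj.v '' S, ∀ k,
    ∀ a ∈ {a | (inj (wn a) : Obj P A) ∈ S}, update v k a ∈ Obj.v '' S := by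
  rintro _ ⟨o, ho, rfl⟩ k a ha
  obtain ⟨ox, hox, e⟩ := h.ex_v 1 (fun _ => a) (fun _ => ha)
  obtain ⟨o', ho', e'⟩ := h.upd_v ho k hox
  refine ⟨o', ho', ?_⟩
  rw [e', e 0 Nat.one_pos]

/-- an initial segment is small -/
theorem GK.small' [Nonempty P] (h : GK T S U) {N : BStr (RO P) K2} {α μ l f : Nm P}
    (hα : (inj α : Obj P A) ∈ S)
    (hμ : (inj μ : Obj P A) ∈ S) (hl : (inj l : Obj P A) ∈ S) {oz : Obj P A} (hz : oz ∈ S)
    (hN : N = bsn (oz.v 0) (oz.v 1) α μ l)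
    (hf : (inj f : Obj P A) ∈ S) {a γ : K2} (ha : (inj (wn a) : Obj P A) ∈ S)
    (hγ : (inj (wn γ) : Obj P A) ∈ S)
    (hlt : ∀ x : K2, (inj (wn x) : Obj P A) ∈ S → N.lt x a ∈ U → ∃ y : K2, (inj (wn y) : Obj P A) ∈ S ∧ y < γ ∧
      Nm.mem (opair (wn x) (wn y)) f ∈ U)
    (hdl : ∀ x : K2, (inj (wn x) : Obj P A) ∈ S → N.lt x a ∈ U ∨ (N.lt x a)ᶜ ∈ U)
    (hin : ∀ x x' y : K2, (inj (wn x) : Obj P A) ∈ S → (inj (wn x') : Obj P A) ∈ S →
      (inj (wn y) : Obj P A) ∈ S → Nm.mem (opair (wn x) (wn y)) f ∈ U →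
      Nm.mem (opair (wn x') (wn y)) f ∈ U → x = x') :
    smallVal (fun x => N.lt x a) ∈ U := by
  subst hN
  have hU := h.flt
  obtain ⟨ox, hox, e⟩ := h.ex_v 2 (t4 a γ γ γ) (fun k => by unfold t4; split <;> assumption)
  have e0 : ox.v 0 = a := e 0 (by norm_num)
  have e1 : ox.v 1 = γ := e 1 (by norm_num)
  unfold Helper84.Kauf.smallVal
  refine hU.iSup_of γ (hU.iSup_of (fun (x y : K2) => Nm.mem (opair (wn x) (wn y)) f) (hU.inf _ ?_ _ ?_))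
  · rw [iInf_t1]
    refine hU.iInf_of (I := Obj.v '' S) (h.wtv _
      (h.ff (18, .zero, .zero, .bot, 0, ∅) _ (ls6 hα hμ hl hz hf hox)) (fun o => ?_)) ?_
    · show (_ ⇨ ⨆ y, tv (RO P) (y < ox.v 1) ⊓ _)ᶜ = _
      rw [e1]
      show ((bsn (oz.v 0) (oz.v 1) α μ l).lt (o.v 0) (ox.v 0) ⇨ _)ᶜ = _
      rw [e0]
      rfl
    · rintro _ ⟨o, ho, rfl⟩
      have hx := h.wn_v ho 0
      rcases hdl _ hx with h1 | h1
      · obtain ⟨y, hy, hyγ, h2⟩ := hlt _ hx h1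
        refine hU.up _ (hU.iSup_of y (hU.inf _ ?_ _ h2)) _ (le_himp_iff.2 inf_le_left)
        rw [tv_true hyγ]
        exact hU.top
      · refine hU.up _ h1 _ ?_
        rw [himp_eq]
        exact le_sup_right
  · rw [iInf_t3]
    refine hU.iInf_of (I := Obj.v '' S) (h.wtv _
      (h.ff (19, .zero, .zero, .bot, 0, ∅) _ (ls6 hα hμ hl hz hf hox)) (fun o => rfl)) ?_
    rintro _ ⟨o, ho, rfl⟩
    have hx := h.wn_v ho 0
    have hx' := h.wn_v ho 1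
    have hy := h.wn_v ho 2
    by_cases h1 : Nm.mem (opair (wn (o.v 0)) (wn (o.v 2))) f ∈ U
    · by_cases h2 : Nm.mem (opair (wn (o.v 1)) (wn (o.v 2))) f ∈ U
      · rw [tv_true (hin _ _ _ hx hx' hy h1 h2), himp_top]
        exact hU.top
      · have h3 := (dec_pair (hG := h.gen) hx' hy hf).resolve_left h2
        refine hU.up _ h3 _ ?_
        rw [himp_eq, compl_inf]
        exact le_sup_right.trans le_sup_right
    · have h3 := (dec_pair (hG := h.gen) hx hy hf).resolve_left h1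
      refine hU.up _ h3 _ ?_
      rw [himp_eq, compl_inf]
      exact le_sup_left.trans le_sup_right

end

end Pool.Agent.Helper23.KB
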