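import Pool.Agent.Helper23.KB.Gn
import Pool.Agent.Helper23.KB.Car
import Pool.Agent.Helper23.KB.Kf2

set_option autoImplicit false

/-!
# The generic model with all the tasks
-/

universe u v w

namespace Pool.Agent.Helper23.KB

open CK hiding K1 K2
open Nm
open Helper84.Kauf (Tm Fm basicAxioms IsRecType BStr BTree tv iffV smallVal kaufVal K1 K2 tv_true tv_false
  IsDistributive)
open Function

instance : Countable Tm := Function.Injective.countable (f := Helper84.Kauf.Tm.code)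
  fun a b h => Helper84.Kauf.Tm.code_inj' a b h

theorem K2_ne : Nonempty K2 := by
  rw [← Cardinal.mk_ne_zero_iff, Helper84.Kauf.mk_K2]
  exact (Cardinal.aleph_pos 2).ne'

/-- objects: names, sequences, functions, sets of formulas, ... -/
structure Obj (P A : Type) [Preorder P] where
  τ : Nm P
  v : ℕ → K2
  u : ℕ → A
  Y : K2 → RO P
  T : Set Fm
  φ : Fm
  k : ℕ
  G : A → K2 → RO P

/-- the kinds of tasks -/
abbrev KK := ℕ × Tm × Tm × Fm × ℕ × Finset Fm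

section
variable {P A : Type} [Preorder P] [LinearOrder A] [WellFoundedLT A] [Nonempty A]

/-- the object with a given name -/
noncomputable def inj (x : Nm P) : Obj P A :=
  ⟨x, fun _ => Classical.choice K2_ne, fun _ => Classical.arbitrary A, fun _ => ⊥, ∅, .bot, 0,
    fun _ _ => ⊥⟩

open Classical in
/-- the element with a given name -/
noncomputable def dec {W : Type} [LinearOrder W] [WellFoundedLT W] [Nonempty W] (x : Nm P) : W :=
  if h : ∃ a : W, wn a = x then h.choose else Classical.arbitrary W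

theorem dec_wn [Nonempty P] {W : Type} [LinearOrder W] [WellFoundedLT W] [Nonempty W] (a : W) :
    dec (wn a : Nm P) = a := by
  have h : ∃ b : W, (wn b : Nm P) = wn a := ⟨a, rfl⟩
  unfold dec
  rw [dif_pos h]
  exact wn_inj h.choose_spec

/-- the Boolean-valued structure with given names -/
noncomputable def bsn (z o : K2) (α μ l : Nm P) : BStr (RO P) K2 where
  zero x := tv (RO P) (z = x)
  one x := tv (RO P) (o = x)
  add a b x := Nm.mem (opair (opair (wn a) (wn b)) (wn x)) α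
  mul a b x := Nm.mem (opair (opair (wn a) (wn b)) (wn x)) μ
  lt a b := Nm.mem (opair (wn a) (wn b)) l

/-- the Boolean-valued structure with given names -/
noncomputable abbrev bs (p : ℕ → Obj P A) : BStr (RO P) K2 :=
  bsn ((p 3).v 0) ((p 3).v 1) (p 0).τ (p 1).τ (p 2).τ

/-- the branch with a given name -/
noncomputable def br (T : BTree (RO P) A) (β : Nm P) (x : A) : RO P := T.U x ⊓ Nm.mem (wn x) β

/-- the tasks for Kaufmann models -/
noncomputable def FF : KK → (ℕ → Obj P A) → Obj P A → RO P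
  | (0, t, u, _), p, i => t.val (bs p) (p 4).v (i.v 0) ⊓ u.val (bs p) (p 4).v (i.v 1) ⊓
      (bs p).add (i.v 0) (i.v 1) ((p 5).v 0)
  | (1, t, u, _), p, i => t.val (bs p) (p 4).v (i.v 0) ⊓ u.val (bs p) (p 4).v (i.v 1) ⊓
      (bs p).mul (i.v 0) (i.v 1) ((p 5).v 0)
  | (2, t, u, _), p, i => t.val (bs p) (p 4).v (i.v 0) ⊓ u.val (bs p) (p 4).v (i.v 0)
  | (3, t, u, _), p, i => t.val (bs p) (p 4).v (i.v 0) ⊓ u.val (bs p) (p 4).v (i.v 1) ⊓
      (bs p).lt (i.v 0) (i.v 1)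
  | (4, _, _, φ, k, _), p, i => (φ.val (bs p) (update (p 4).v k (i.v 0)))ᶜ
  | (5, _), p, i => (indI (bs p) i.φ i.k i.v)ᶜ
  | (6, _, _, φ, _), p, i => (φ.val (bs p) i.v)ᶜ
  | (7, _), p, i => (⨆ x, (bs p).add (i.v 0) (i.v 1) x)ᶜ
  | (8, _), p, i => (⨆ x, (bs p).mul (i.v 0) (i.v 1) x)ᶜ
  | (9, _), p, i => ((bs p).add (i.v 0) (i.v 1) (i.v 2) ⊓ (bs p).add (i.v 0) (i.v 1) (i.v 3) ⇨
      tv (RO P) (i.v 2 = i.v 3))ᶜ
  | (10, _), p, i => ((bs p).mul (i.v 0) (i.v 1) (i.v 2) ⊓ (bs p).mul (i.v 0) (i.v 1) (i.v 3) ⇨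
      tv (RO P) (i.v 2 = i.v 3))ᶜ
  | (11, _), p, i => (smallVal fun x => (bs p).lt x (i.v 0))ᶜ
  | (12, _), p, i => (recI (bs p) i.T i.v)ᶜ
  | (13, _, _, _, _, F), p, i => ⨅ φ ∈ F, φ.val (bs p) (update (p 4).v 0 (i.v 0))
  | (14, _), p, i => (⨅ _ : i.φ ∈ (p 4).T, i.φ.val (bs p) (update (p 4).v 0 ((p 5).v 0)))ᶜ
  | (15, _), p, i => ((bs p).classVal i.Y ⇨ (bs p).defVal i.Y)ᶜ
  | (16, _), p, i => ⨅ x, iffV ((p 4).Y x ⊓ (bs p).lt x ((p 5).v 0))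
      (i.φ.val (bs p) (update i.v 0 x))
  | (17, _, _, φ, _), p, i => (iffV ((p 4).Y (i.v 0)) (φ.val (bs p) (update (p 5).v 0 (i.v 0))))ᶜ
  | (18, _), p, i => ((bs p).lt (i.v 0) ((p 5).v 0) ⇨ ⨆ y, tv (RO P) (y < (p 5).v 1) ⊓
      Nm.mem (opair (wn (i.v 0)) (wn y)) (p 4).τ)ᶜ
  | (19, _), p, i => (Nm.mem (opair (wn (i.v 0)) (wn (i.v 2))) (p 4).τ ⊓
      Nm.mem (opair (wn (i.v 1)) (wn (i.v 2))) (p 4).τ ⇨ tv (RO P) (i.v 0 = i.v 1))ᶜ
  | _, _, _ => ⊥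

/-- the tasks for the tree `T` -/
noncomputable def FT (T : BTree (RO P) A) : ℕ → (ℕ → Obj P A) → Obj P A → RO P
  | 0, p, i => T.lev ((p 0).u 0) (i.v 0)
  | 1, p, i => T.U (i.u 0) ⊓ T.lt (i.u 0) ((p 0).u 0) ⊓ T.lev (i.u 0) ((p 1).v 0)
  | 2, p, i => T.U (i.u 0) ⊓ T.lev (i.u 0) ((p 0).v 0)
  | 3, p, i => (⨅ x, T.U x ⊓ T.lev x ((p 0).v 0) ⇨ ⨆ y, tv (RO P) (y < i.v 0) ⊓ i.G x y) ⊓
      (⨅ x, ⨅ x', ⨅ y, i.G x y ⊓ i.G x' y ⇨ tv (RO P) (x = x'))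
  | 4, p, i => tv (RO P) (i.v 0 < (p 1).v 0) ⊓ (p 1).G ((p 0).u 0) (i.v 0)
  | 5, p, i => (br T (p 0).τ (i.u 0) ⊓ br T (p 0).τ (i.u 1) ⇨
      tv (RO P) (i.u 0 = i.u 1) ⊔ T.lt (i.u 0) (i.u 1) ⊔ T.lt (i.u 1) (i.u 0))ᶜ
  | 6, p, i => (⨆ x, br T (p 0).τ x ⊓ T.lev x (i.v 0))ᶜ
  | _, _, _ => ⊥

/-- the operations -/
noncomputable def OP : ℕ × ℕ → (ℕ → Obj P A) → Obj P A
  | (0, k), p => inj (wn ((p 0).v k))
  | (1, _), p => { (inj Nm.emp : Obj P A) with v := fun i => @dec P _ K2 _ _ K2_ne (p i).τ }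
  | (2, k), p => { (inj Nm.emp : Obj P A) with v := update (p 0).v k ((p 1).v 0) }
  | (3, _), p => inj (sn (p 0).Y)
  | (4, k), p => inj (wn ((p 0).u k))
  | (5, _), p => { (inj Nm.emp : Obj P A) with u := fun i => dec (p i).τ }
  | (6, _), p => inj (rn fun y x => (p 0).G x y)
  | _, _ => inj Nm.emp

/-- the countable set `S` of objects and the filter `U` are generic -/
structure GK (T : BTree (RO P) A) (S : Set (Obj P A)) (U : Set (RO P)) : Prop where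
  gen : Gen {x | (inj x : Obj P A) ∈ S} U
  op : ∀ k l, Ls S l → OP k (nth (inj Nm.emp) l) ∈ S
  nm : ∀ o ∈ S, inj o.τ ∈ S
  ff : ∀ k l, Ls S l → (⨆ i, FF k (nth (inj Nm.emp) l) i)ᶜ ∈ U ∨
    ∃ i ∈ S, FF k (nth (inj Nm.emp) l) i ∈ U
  ft : ∀ k l, Ls S l → (⨆ i, FT T k (nth (inj Nm.emp) l) i)ᶜ ∈ U ∨
    ∃ i ∈ S, FT T k (nth (inj Nm.emp) l) i ∈ U

theorem exists_gk [Nonempty P] (T : BTree (RO P) A) (C : Set (Nm P)) (hC : C.Countable) :
    ∃ (S : Set (Obj P A)) (U : Set (RO P)), GK T S U ∧ ∀ x ∈ C, (inj x : Obj P A) ∈ S := by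
  have hc : (⊤ : RO P) ≠ ⊥ := by
    intro h
    obtain ⟨p⟩ := ‹Nonempty P›
    have : p ∈ (⊤ : RO P).carrier := trivial
    rw [h] at this
    exact this
  obtain ⟨S, U, h1, h2, _, h3, h4, h5⟩ := exists_gen (K := KK ⊕ ℕ ⊕ (ℕ × ℕ)) (inj : Nm P → Obj P A)
    Obj.τ (fun _ => rfl)
    (fun k => match k with
      | .inl k => FF k
      | .inr (.inl k) => FT T k
      | .inr (.inr _) => fun _ _ => ⊥)
    (fun k => match k with
      | .inr (.inr k) => OP k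
      | _ => fun _ => inj Nm.emp) (inj '' C) (hC.image _) ⊤ hc
  refine ⟨S, U, ⟨h1, fun k l hl => h3 (.inr (.inr k)) l hl, h4, fun k l hl => h5 (.inl k) l hl,
    fun k l hl => h5 (.inr (.inl k)) l hl⟩, fun x hx => h2 ⟨x, hx, rfl⟩⟩

namespace GK

variable {T : BTree (RO P) A} {S : Set (Obj P A)} {U : Set (RO P)} (h : GK T S U)
include h

theorem flt : Flt U := ⟨h.gen.top, h.gen.bot, h.gen.up, h.gen.inf⟩

theorem wt {ι : Type w} (pr : Obj P A → ι) (sec : ι → Obj P A) (hps : ∀ i, pr (sec i) = i)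
    (g : ι → RO P) {G : Obj P A → RO P} (hw : (⨆ o, G o)ᶜ ∈ U ∨ ∃ o ∈ S, G o ∈ U)
    (hG : ∀ o, G o = g (pr o)) : Wt U (pr '' S) g := by
  rcases hw with hw | ⟨o, ho, hw⟩
  · refine Or.inl (h.gen.up _ hw _ (compl_le_compl (iSup_le fun i => ?_)))
    refine le_trans (le_of_eq ?_) (le_iSup G (sec i))
    rw [hG, hps]
  · refine Or.inr ⟨pr o, ⟨o, ho, rfl⟩, ?_⟩
    rwa [hG] at hw

theorem wtv (g : (ℕ → K2) → RO P) {G : Obj P A → RO P}
    (hw : (⨆ o, G o)ᶜ ∈ U ∨ ∃ o ∈ S, G o ∈ U) (hG : ∀ o, G o = g o.v) : Wt U (Obj.v '' S) g :=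
  h.wt Obj.v (fun v => { (inj Nm.emp : Obj P A) with v := v }) (fun _ => rfl) g hw hG

theorem wn_v {o : Obj P A} (ho : o ∈ S) (k : ℕ) : (inj (wn (o.v k)) : Obj P A) ∈ S :=
  h.op (0, k) [o] (by simpa [Ls] using ho)

theorem wn_u {o : Obj P A} (ho : o ∈ S) (k : ℕ) : (inj (wn (o.u k)) : Obj P A) ∈ S :=
  h.op (4, k) [o] (by simpa [Ls] using ho)

omit [LinearOrder A] [WellFoundedLT A] h in
theorem nth_fin {n : ℕ} (s : ℕ → Nm P) (k : ℕ) (hk : k < n) :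
    nth (inj Nm.emp : Obj P A) (List.ofFn fun i : Fin n => inj (s i)) k = inj (s k) := by
  have := nth_ofFn (d := (inj Nm.emp : Obj P A)) (fun i : Fin n => inj (s i)) [] k hk
  rwa [List.append_nil] at this

theorem ex_v [Nonempty P] (n : ℕ) (s : ℕ → K2) (hs : ∀ k, (inj (wn (s k)) : Obj P A) ∈ S) :
    ∃ o ∈ S, ∀ k < n, o.v k = s k := by
  refine ⟨_, h.op (1, 0) (List.ofFn fun i : Fin n => inj (wn (s i))) (fun x hx => ?_), fun k hk => ?_⟩
  · obtain ⟨i, rfl⟩ := (List.mem_ofFn' _ _).1 hx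
    exact hs i
  · show @dec P _ K2 _ _ K2_ne (nth (inj Nm.emp : Obj P A) _ k).τ = s k
    rw [nth_fin (fun k => wn (s k)) k hk]
    exact @dec_wn P _ _ K2 _ _ K2_ne (s k)

theorem ex_u [Nonempty P] (n : ℕ) (s : ℕ → A) (hs : ∀ k, (inj (wn (s k)) : Obj P A) ∈ S) :
    ∃ o ∈ S, ∀ k < n, o.u k = s k := by
  refine ⟨_, h.op (5, 0) (List.ofFn fun i : Fin n => inj (wn (s i))) (fun x hx => ?_), fun k hk => ?_⟩
  · obtain ⟨i, rfl⟩ := (List.mem_ofFn' _ _).1 hx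
    exact hs i
  · show dec (nth (inj Nm.emp : Obj P A) _ k).τ = s k
    rw [nth_fin (fun k => wn (s k)) k hk]
    exact dec_wn (s k)

theorem upd_v {o : Obj P A} (ho : o ∈ S) (k : ℕ) {a : Obj P A} (ha : a ∈ S) :
    ∃ o' ∈ S, o'.v = update o.v k (a.v 0) :=
  ⟨_, h.op (2, k) [o, a] (by
    intro x hx
    simp only [List.mem_cons, List.not_mem_nil, or_false] at hx
    rcases hx with rfl | rfl
    · exact ho
    · exact ha), rfl⟩

end GK

end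

end Pool.Agent.Helper23.KB
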