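import Pool.Agent.Helper23.CK.Ma
import Pool.Agent.Helper84.Kauf.Val

set_option autoImplicit false

/-!
# Names of the elements of a well-ordered set; cardinals are preserved
-/

universe u v w

namespace Pool.Agent.Helper23.KB

open CK hiding K1 K2
open WT (iffV bElim bOr bMP bImp bNot bAbs bAll bEx bIff bIff_mp bIff_mpr bLeft bRight bCases bContra eq_of_forall iffV_self iffV_eq_top)
open WT (Fm ZF ZM)
open Nm
open Helper84.Kauf (K1 K2 IsDistributive)
open scoped Cardinal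

section
variable {P : Type} [Preorder P] {W : Type} [LinearOrder W] [WellFoundedLT W]

/-- the name of an element of a well-ordered set -/
noncomputable def wn : W → Nm P :=
  WellFounded.fix (C := fun _ => Nm P) (r := (· < ·)) wellFounded_lt fun α F =>
    Nm.mk {b : W // b < α} (fun β => F β.1 β.2) (fun _ => ⊤)

theorem wn_eq (α : W) : (wn α : Nm P) = Nm.mk {b : W // b < α} (fun β => wn β.1) (fun _ => ⊤) := by
  conv_lhs => unfold wn
  rw [WellFounded.fix_eq]
  rfl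

theorem mem_wn (x : Nm P) (α : W) : Nm.mem x (wn α) = ⨆ β : {b : W // b < α}, Nm.eq x (wn β.1) := by
  rw [wn_eq, mem_mk]
  exact iSup_congr fun β => by rw [top_inf_eq]

theorem wn_mem_wn {α β : W} (h : α < β) {Γ : RO P} : Γ ≤ Nm.mem (wn α) (wn β) := by
  rw [mem_wn]
  exact bEx ⟨α, h⟩ (bRefl _)

theorem eq_wn {α β : W} (h : α ≠ β) {Γ : RO P} (hΓ : Γ ≤ Nm.eq (wn α) (wn β)) : Γ ≤ ⊥ := by
  rcases lt_or_gt_of_ne h with h' | h'
  · have := bMemL (x := wn α) (y := wn β) hΓ (wn_mem_wn h')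
    rwa [mem_irrefl] at this
  · have := bMemL (bSymm hΓ) (wn_mem_wn h')
    rwa [mem_irrefl] at this

theorem eq_wn_bot {α β : W} (h : α ≠ β) : Nm.eq (wn α : Nm P) (wn β) = ⊥ :=
  le_bot_iff.1 (eq_wn h le_rfl)

theorem mem_wn_lt {α β : W} (h : ¬ α < β) {Γ : RO P} (hΓ : Γ ≤ Nm.mem (wn α) (wn β)) :
    Γ ≤ ⊥ := by
  rw [mem_wn] at hΓ
  refine bElim hΓ fun γ Δ h1 h2 => ?_
  refine eq_wn (fun h' => ?_) h2
  exact h (by rw [h']; exact γ.2)

theorem wn_inj [Nonempty P] {α β : W} (h : (wn α : Nm P) = wn β) : α = β := by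
  by_contra hne
  obtain ⟨p⟩ := ‹Nonempty P›
  have h1 : (⊤ : RO P) ≤ ⊥ := eq_wn hne (by rw [h]; exact bRefl _)
  exact h1 (show p ∈ (⊤ : RO P).carrier from trivial)

/-- the name of a subset -/
noncomputable def sn (X : W → RO P) : Nm P := Nm.mk W (fun a => wn a) X

theorem mem_sn' (X : W → RO P) (x : Nm P) : Nm.mem x (sn X) = ⨆ a, X a ⊓ Nm.eq x (wn a) := rfl

theorem mem_sn (X : W → RO P) (a : W) : Nm.mem (wn a) (sn X) = X a := by
  rw [mem_sn']
  refine le_antisymm (iSup_le fun b => ?_) (bEx a (le_inf le_rfl (bRefl _)))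
  by_cases h : a = b
  · rw [h]; exact inf_le_left
  · exact (eq_wn h inf_le_right).trans bot_le

/-- the name of the whole set -/
noncomputable def on (P : Type) [Preorder P] (W : Type) [LinearOrder W] [WellFoundedLT W] : Nm P :=
  sn (W := W) fun _ => ⊤

theorem mem_on (x : Nm P) : Nm.mem x (on P W) = ⨆ a : W, Nm.eq x (wn a) := by
  unfold on
  rw [mem_sn']
  exact iSup_congr fun β => by rw [top_inf_eq]

theorem wn_mem_on (a : W) {Γ : RO P} : Γ ≤ Nm.mem (wn a) (on P W) := by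
  rw [mem_on]; exact bEx a (bRefl _)

variable {V : Type} [LinearOrder V] [WellFoundedLT V]

/-- the name of a relation -/
noncomputable def rn (F : V → W → RO P) : Nm P :=
  Nm.mk (V × W) (fun p => opair (wn p.1) (wn p.2)) (fun p => F p.1 p.2)

theorem mem_rn' (F : V → W → RO P) (x y : Nm P) : Nm.mem (opair x y) (rn F) =
    ⨆ p : V × W, F p.1 p.2 ⊓ (Nm.eq x (wn p.1) ⊓ Nm.eq y (wn p.2)) := by
  unfold rn
  rw [mem_pairs (a := fun p : V × W => (wn p.1 : Nm P)) (b := fun p : V × W => (wn p.2 : Nm P))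
    (v := fun p => F p.1 p.2)]

theorem mem_rn (F : V → W → RO P) (a : V) (b : W) :
    Nm.mem (opair (wn a) (wn b)) (rn F) = F a b := by
  rw [mem_rn']
  refine le_antisymm (iSup_le fun p => ?_) (bEx (a, b) (le_inf le_rfl (le_inf (bRefl _) (bRefl _))))
  by_cases h : a = p.1
  · by_cases h' : b = p.2
    · rw [h, h']; exact inf_le_left
    · exact (eq_wn h' (inf_le_right.trans inf_le_right)).trans bot_le
  · exact (eq_wn h (inf_le_right.trans inf_le_left)).trans bot_le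

/-! ### cardinals -/

/-- a set whose elements are numbered by the elements of `V` -/
theorem list_wn (e : V → Option W) (a : Set W) (he : ∀ b ∈ a, ∃ n, e n = some b) {Γ : RO P} :
    Γ ≤ ⨆ c, ListB c (on P V) (sn fun b => ⨆ _ : b ∈ a, ⊤) := by
  classical
  refine bEx (rn fun n b => ⨆ _ : e n = some b, ⊤) (le_inf ?_ ?_)
  · unfold rn
    refine funB_pairs (a := fun p : V × W => (wn p.1 : Nm P)) (b := fun p : V × W => (wn p.2 : Nm P))
      fun i j Γ h1 h2 h => ?_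
    by_cases hij : i.1 = j.1
    · refine bElim h1 fun hi Δ h3 _ => bElim (h3.trans h2) fun hj Δ' h5 _ => ?_
      rw [hij, hj] at hi
      rw [Option.some.inj hi]
      exact bRefl _
    · exact (eq_wn hij h).trans bot_le
  · refine le_iInf fun x => bImp fun Δ _ h2 => ?_
    rw [mem_sn'] at h2
    refine bElim h2 fun b Δ' h3 h4 => bElim (bLeft h4) fun hb Δ'' h5 _ => ?_
    obtain ⟨n, hn⟩ := he b hb
    refine bEx (wn n) (le_inf (wn_mem_on n) ?_)
    refine bMemL (x := opair (wn n) (wn b)) (bOpairCongr (bRefl _) (bSymm (bRight (h5.trans h4)))) ?_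
    rw [mem_rn]
    exact bEx hn le_top

/-- a small set is listed by the elements of `V` -/
theorem list_wn_lt (a : W) (f : {b : W // b < a} → V) (hf : Function.Injective f) {Γ : RO P} :
    Γ ≤ ⨆ c, ListB c (on P V) (wn a) := by
  classical
  let e : V → Option W := fun n => if h : ∃ b, f b = n then some h.choose.1 else none
  have he : ∀ b ∈ Set.Iio a, ∃ n, e n = some b := by
    intro b hb
    have h : ∃ b', f b' = f ⟨b, hb⟩ := ⟨_, rfl⟩
    refine ⟨f ⟨b, hb⟩, ?_⟩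
    show (if h : ∃ b', f b' = f ⟨b, hb⟩ then some h.choose.1 else none) = _
    rw [dif_pos h]
    congr 1
    have := hf h.choose_spec
    rw [this]
  refine bElim (list_wn e (Set.Iio a) he (Γ := Γ)) fun c Δ _ h2 => ?_
  refine bEx c (le_inf (bLeft h2) (le_iInf fun x => bImp fun Δ' h3 h4 => ?_))
  refine bMP (bAll (bRight (h3.trans h2)) x) ?_
  rw [mem_wn] at h4
  refine bElim h4 fun β Δ'' h5 h6 => ?_
  refine bMemL (bSymm h6) ?_
  rw [mem_sn]
  exact bEx β.2 le_top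

theorem injB_omg (hd : IsDistributive (RO P)) (hW : #W = ℵ₁) (f : Nm P) : InjB f (on P W) omg = ⊥ := by
  refine le_bot_iff.1 ?_
  set Γ := InjB f (on P W) omg with hΓ
  have h1 : Γ ≤ ⨅ a : W, ⨆ n : ℕ, Nm.mem (opair (wn a) (nat n)) f := by
    refine le_iInf fun a => ?_
    refine bElim (injB_tot (f := f) (w := omg) le_rfl (wn_mem_on a)) fun n Δ _ h3 => ?_
    have h4 := bLeft h3
    rw [mem_omg] at h4
    refine bElim h4 fun k Δ' h5 h6 => ?_
    exact bEx k (bMemL (bOpairCongr (bRefl _) h6) (bRight (h5.trans h3)))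
  rw [hd W ℕ hW.le] at h1
  refine bElim h1 fun g Δ h2 h3 => ?_
  have hg : ¬ Function.Injective g := by
    intro hg
    have h4 := Cardinal.mk_le_of_injective hg
    rw [hW] at h4
    have h5 : ℵ₀ < ℵ₁ := by
      rw [← Cardinal.succ_aleph0]; exact Order.lt_succ _
    rw [Cardinal.mk_nat] at h4
    exact absurd h4 (not_le.2 h5)
  simp only [Function.Injective, not_forall] at hg
  obtain ⟨a, b, hab, hne⟩ := hg
  have h4 := bAll h3 a
  have h5 := bAll h3 b
  rw [← hab] at h5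
  exact eq_wn hne (injB_inj (h2.trans hΓ.le) (wn_mem_on a) (wn_mem_on b) h4 h5)

theorem injB_on (hd : IsDistributive (RO P)) (hV : #V ≤ ℵ₁) (hVW : #V < #W) (f : Nm P) : InjB f (on P W) (on P V) = ⊥ := by
  classical
  refine le_bot_iff.1 ?_
  set Γ := InjB f (on P W) (on P V) with hΓ
  let x : V → Option W → RO P := fun ξ o => match o with
    | some b => Nm.mem (opair (wn b) (wn ξ)) f
    | none => (⨆ b : W, Nm.mem (opair (wn b) (wn ξ)) f)ᶜ
  have h1 : Γ ≤ ⨅ ξ : V, ⨆ o, x ξ o := by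
    refine le_iInf fun ξ => ?_
    refine bCases (⨆ b : W, Nm.mem (opair (wn b) (wn ξ)) f) (fun Δ _ h => ?_) (fun Δ _ h => ?_)
    · refine bElim h fun b Δ' _ h' => ?_
      exact bEx (some b) h'
    · exact bEx none h
  rw [hd V (Option W) hV] at h1
  refine bElim h1 fun g Δ h2 h3 => ?_
  have hg : ∃ a : W, ∀ ξ, g ξ ≠ some a := by
    by_contra hc
    push Not at hc
    choose h hh using hc
    have : Function.Injective h := by
      intro a b hab
      have := hh a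
      rw [hab, hh b] at this
      exact (Option.some.inj this).symm
    exact absurd (Cardinal.mk_le_of_injective this) (not_le.2 hVW)
  obtain ⟨a, ha⟩ := hg
  refine bElim (injB_tot (f := f) (w := on P V) (h2.trans hΓ.le) (wn_mem_on a)) fun n Δ₁ h4 h5 => ?_
  have h6 := bLeft h5
  rw [mem_on] at h6
  refine bElim h6 fun ξ Δ₂ h7 h8 => ?_
  have h9 : Δ₂ ≤ Nm.mem (opair (wn a) (wn ξ)) f := bMemL (bOpairCongr (bRefl _) h8) (bRight (h7.trans h5))
  have h10 := bAll ((h7.trans h4).trans h3) ξ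
  cases hgξ : g ξ with
  | none =>
    rw [hgξ] at h10
    exact bAbs h10 (bEx a h9)
  | some b =>
    rw [hgξ] at h10
    have hne : a ≠ b := fun h => ha ξ (by rw [hgξ, h])
    exact eq_wn hne (injB_inj (((h7.trans h4).trans h2).trans hΓ.le) (wn_mem_on a) (wn_mem_on b) h9 h10)

end

/-! ### evaluation -/

section
variable {P : Type} [Preorder P] {S : Set (Nm P)} {U : Set (RO P)} (hG : Gen S U)

include hG in
theorem isSub_of {τ x : Nm P} (h : Nm.sub τ x ∈ U) : x.IsSub τ := by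
  by_contra h1
  have : Nm.sub τ x = ⊥ := by
    by_contra hc
    obtain ⟨p, hp⟩ := RO.ne_bot hc
    exact h1 (Nm.isSub_of_sub hp)
  rw [this] at h
  exact hG.bot h

theorem mem_val_mk {ι : Type} {a : ι → Nm P} {v : ι → RO P} (ha : Function.Injective a)
    {z : ZFSet.{0}} : z ∈ hG.val (Nm.mk ι a v) ↔ ∃ i, a i ∈ S ∧ v i ∈ U ∧ z = hG.val (a i) := by
  rw [hG.mem_val]
  constructor
  · rintro ⟨x, hx, h, rfl⟩
    obtain ⟨i, rfl⟩ := isSub_of hG h
    refine ⟨i, hx, hG.up _ h _ ?_, rfl⟩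
    show (⨆ j, ⨆ _ : a j = a i, v j) ≤ v i
    exact iSup_le fun j => iSup_le fun hj => by rw [ha hj]
  · rintro ⟨i, hi, h, rfl⟩
    exact ⟨a i, hi, hG.up _ h _ (sub_mk (a := a) (v := v) i), rfl⟩

include hG in
theorem nonempty_P : Nonempty P := by
  by_contra h
  have h' : IsEmpty P := not_nonempty_iff.1 h
  have : (⊤ : RO P) ≤ ⊥ := fun p _ => h'.elim p
  exact hG.bot (hG.up _ hG.top _ this)

variable {W : Type} [LinearOrder W] [WellFoundedLT W]

include hG in
theorem wn_injective : Function.Injective (wn : W → Nm P) := by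
  have := nonempty_P hG
  exact fun a b h => wn_inj h

theorem mem_val_wn {α : W} {z : ZFSet.{0}} :
    z ∈ hG.val (wn α) ↔ ∃ β < α, wn β ∈ S ∧ z = hG.val (wn β) := by
  rw [wn_eq, mem_val_mk hG (fun a b h => Subtype.ext (wn_injective hG h))]
  constructor
  · rintro ⟨⟨β, hβ⟩, h1, _, rfl⟩
    exact ⟨β, hβ, h1, rfl⟩
  · rintro ⟨β, hβ, h1, rfl⟩
    exact ⟨⟨β, hβ⟩, h1, hG.top, rfl⟩

theorem mem_val_sn {X : W → RO P} {z : ZFSet.{0}} :
    z ∈ hG.val (sn X) ↔ ∃ a, wn a ∈ S ∧ X a ∈ U ∧ z = hG.val (wn a) :=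
  mem_val_mk hG (wn_injective hG)

theorem mem_val_on {z : ZFSet.{0}} :
    z ∈ hG.val (on P W) ↔ ∃ a : W, wn a ∈ S ∧ z = hG.val (wn a) := by
  unfold on
  rw [mem_val_sn]
  simp only [hG.top, true_and]

theorem val_wn_inj {a b : W} (ha : (wn a : Nm P) ∈ S) (hb : (wn b : Nm P) ∈ S)
    (h : hG.val (wn a) = hG.val (wn b)) : a = b := by
  by_contra hne
  have := (hG.eq_iff ha hb).2 h
  rw [eq_wn_bot hne] at this
  exact hG.bot this

theorem val_wn_mem {a b : W} (ha : (wn a : Nm P) ∈ S) :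
    hG.val (wn a) ∈ hG.val (wn b) ↔ a < b := by
  rw [mem_val_wn]
  constructor
  · rintro ⟨c, hc, hcS, h⟩
    rwa [val_wn_inj hG ha hcS h]
  · intro h
    exact ⟨a, h, ha, rfl⟩

theorem val_wn_ord (α : W) : (hG.val (wn α)).IsOrdinal where
  isTransitive := by
    intro y hy z hz
    obtain ⟨β, hβ, _, rfl⟩ := (mem_val_wn hG).1 hy
    obtain ⟨γ, hγ, hS, rfl⟩ := (mem_val_wn hG).1 hz
    exact (mem_val_wn hG).2 ⟨γ, hγ.trans hβ, hS, rfl⟩
  mem_trans' := by
    intro z y w h1 h2 h3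
    obtain ⟨β, hβ, _, rfl⟩ := (mem_val_wn hG).1 h3
    obtain ⟨γ, hγ, _, rfl⟩ := (mem_val_wn hG).1 h2
    obtain ⟨δ, hδ, hS, rfl⟩ := (mem_val_wn hG).1 h1
    exact (mem_val_wn hG).2 ⟨δ, hδ.trans hγ, hS, rfl⟩

theorem val_on_ord : (hG.val (on P W)).IsOrdinal where
  isTransitive := by
    intro y hy z hz
    obtain ⟨β, _, rfl⟩ := (mem_val_on hG).1 hy
    obtain ⟨γ, hγ, hS, rfl⟩ := (mem_val_wn hG).1 hz
    exact (mem_val_on hG).2 ⟨γ, hS, rfl⟩
  mem_trans' := by
    intro z y w h1 h2 h3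
    obtain ⟨β, _, rfl⟩ := (mem_val_on hG).1 h3
    exact (val_wn_ord hG β).isTransitive.mem_trans h1 h2

end

/-! ### truth of pairs -/

section
variable {P : Type} [Preorder P] {S : Set (Nm P)} {U : Set (RO P)} {hG : Gen S U}

theorem pair_iff {x y z : Nm P} (hx : x ∈ S) (hy : y ∈ S) (hz : z ∈ S) :
    ZM.E (WT.opair (hG.el x hx) (hG.el y hy)) (hG.el z hz) ↔ Nm.mem (opair x y) z ∈ U := by
  have h : hG.Tr (n := 3) (fun v => ZM.E (WT.opair (v 0) (v 1)) (v 2))
      (fun v => Nm.mem (Nm.opair (v 0) (v 1)) (v 2)) :=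
    Gen.Tr.mem (Gen.TrF.opair (Gen.TrF.var 0) (Gen.TrF.var 1)) (Gen.TrF.var 2)
  exact h.iff_mem ![x, y, z] (by intro i; fin_cases i <;> assumption)

theorem trip_iff {x y t z : Nm P} (hx : x ∈ S) (hy : y ∈ S) (ht : t ∈ S) (hz : z ∈ S) :
    ZM.E (WT.opair (WT.opair (hG.el x hx) (hG.el y hy)) (hG.el t ht)) (hG.el z hz) ↔
      Nm.mem (opair (opair x y) t) z ∈ U := by
  have h : hG.Tr (n := 4) (fun v => ZM.E (WT.opair (WT.opair (v 0) (v 1)) (v 2)) (v 3))
      (fun v => Nm.mem (Nm.opair (Nm.opair (v 0) (v 1)) (v 2)) (v 3)) :=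
    Gen.Tr.mem (Gen.TrF.opair (Gen.TrF.opair (Gen.TrF.var 0) (Gen.TrF.var 1)) (Gen.TrF.var 2))
      (Gen.TrF.var 3)
  exact h.iff_mem ![x, y, t, z] (by intro i; fin_cases i <;> assumption)

include hG in
theorem dec_pair {x y z : Nm P} (hx : x ∈ S) (hy : y ∈ S) (hz : z ∈ S) :
    Nm.mem (opair x y) z ∈ U ∨ (Nm.mem (opair x y) z)ᶜ ∈ U := by
  have h : hG.Tr (n := 3) (fun v => ZM.E (WT.opair (v 0) (v 1)) (v 2))
      (fun v => Nm.mem (Nm.opair (v 0) (v 1)) (v 2)) :=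
    Gen.Tr.mem (Gen.TrF.opair (Gen.TrF.var 0) (Gen.TrF.var 1)) (Gen.TrF.var 2)
  obtain ⟨f, _, hf⟩ := h
  have := hG.dec0 f ![x, y, z] (by intro i; fin_cases i <;> assumption)
  rwa [hf] at this

include hG in
theorem dec_trip {x y t z : Nm P} (hx : x ∈ S) (hy : y ∈ S) (ht : t ∈ S) (hz : z ∈ S) :
    Nm.mem (opair (opair x y) t) z ∈ U ∨ (Nm.mem (opair (opair x y) t) z)ᶜ ∈ U := by
  have h : hG.Tr (n := 4) (fun v => ZM.E (WT.opair (WT.opair (v 0) (v 1)) (v 2)) (v 3))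
      (fun v => Nm.mem (Nm.opair (Nm.opair (v 0) (v 1)) (v 2)) (v 3)) :=
    Gen.Tr.mem (Gen.TrF.opair (Gen.TrF.opair (Gen.TrF.var 0) (Gen.TrF.var 1)) (Gen.TrF.var 2))
      (Gen.TrF.var 3)
  obtain ⟨f, _, hf⟩ := h
  have := hG.dec0 f ![x, y, t, z] (by intro i; fin_cases i <;> assumption)
  rwa [hf] at this

end

end Pool.Agent.Helper23.KB
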